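import Mathlib
import Pool.Agent.Lib_helper89.PPM.Count

/-!
# A primitive recursive interpreter for register programs
-/

set_option autoImplicit false
set_option linter.dupNamespace false

namespace Pool.Agent.PPMDec

open Function Pool.Agent.PT

/-! ### decoding of programs -/

/-- the test with a given code -/
def testOf (a : ℕ) (o : Option Bool) : Bool :=
  match o with
  | none => decide (a.unpair.1 ≠ 0)
  | some false => decide (a.unpair.2.unpair.1 ≠ 0)
  | some true => decide (a.unpair.2.unpair.2 ≠ 0)

theorem testOf_testCode (t : Option Bool → Bool) : testOf (testCode t) = t := by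
  funext o
  rcases o with _ | _ | _
  · simp only [testOf, testCode, Nat.unpair_pair]
    cases t none <;> simp
  · simp only [testOf, testCode, Nat.unpair_pair]
    cases t (some false) <;> simp
  · simp only [testOf, testCode, Nat.unpair_pair]
    cases t (some true) <;> simp

theorem unpair_lt_of {e : ℕ} (h : e.unpair.1 ≠ 0) : e.unpair.2 < e := by
  have h1 := Nat.add_le_pair e.unpair.1 e.unpair.2
  rw [Nat.pair_unpair] at h1
  omega

/-- the program with a given code -/
def cmdOf (e : ℕ) : Cmd :=
  if e.unpair.1 = 0 then .push e.unpair.2.unpair.1 (decide (e.unpair.2.unpair.2 ≠ 0))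
  else if e.unpair.1 = 1 then .pop e.unpair.2
  else if e.unpair.1 = 2 then .skip
  else if h3 : e.unpair.1 = 3 then
    have h := unpair_lt_of (e := e) (by omega)
    have h1 := Nat.unpair_left_le e.unpair.2
    have h2 := Nat.unpair_right_le e.unpair.2
    .seq (cmdOf e.unpair.2.unpair.1) (cmdOf e.unpair.2.unpair.2)
  else if h4 : e.unpair.1 = 4 then
    have h := unpair_lt_of (e := e) (by omega)
    have h1 := Nat.unpair_right_le e.unpair.2
    have h2 := Nat.unpair_left_le e.unpair.2.unpair.2
    have h3 := Nat.unpair_right_le e.unpair.2.unpair.2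
    .ite e.unpair.2.unpair.1.unpair.1 (testOf e.unpair.2.unpair.1.unpair.2)
      (cmdOf e.unpair.2.unpair.2.unpair.1) (cmdOf e.unpair.2.unpair.2.unpair.2)
  else if h0 : e.unpair.1 = 0 then .skip
  else
    have h := unpair_lt_of (e := e) h0
    have h1 := Nat.unpair_right_le e.unpair.2
    .loop e.unpair.2.unpair.1.unpair.1 (testOf e.unpair.2.unpair.1.unpair.2)
      (cmdOf e.unpair.2.unpair.2)
termination_by e
decreasing_by all_goals omega

theorem cmdOf_push {e : ℕ} (h : e.unpair.1 = 0) :
    cmdOf e = .push e.unpair.2.unpair.1 (decide (e.unpair.2.unpair.2 ≠ 0)) := by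
  rw [cmdOf]
  simp [h]

theorem cmdOf_pop {e : ℕ} (h : e.unpair.1 = 1) : cmdOf e = .pop e.unpair.2 := by
  rw [cmdOf]
  simp [h]

theorem cmdOf_skip {e : ℕ} (h : e.unpair.1 = 2) : cmdOf e = .skip := by
  rw [cmdOf]
  simp [h]

theorem cmdOf_seq {e : ℕ} (h : e.unpair.1 = 3) :
    cmdOf e = .seq (cmdOf e.unpair.2.unpair.1) (cmdOf e.unpair.2.unpair.2) := by
  rw [cmdOf]
  simp [h]

theorem cmdOf_ite {e : ℕ} (h : e.unpair.1 = 4) :
    cmdOf e = .ite e.unpair.2.unpair.1.unpair.1 (testOf e.unpair.2.unpair.1.unpair.2)
      (cmdOf e.unpair.2.unpair.2.unpair.1) (cmdOf e.unpair.2.unpair.2.unpair.2) := by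
  rw [cmdOf]
  simp [h]

theorem cmdOf_loop {e : ℕ} (h : 5 ≤ e.unpair.1) :
    cmdOf e = .loop e.unpair.2.unpair.1.unpair.1 (testOf e.unpair.2.unpair.1.unpair.2)
      (cmdOf e.unpair.2.unpair.2) := by
  rw [cmdOf]
  have h0 : e.unpair.1 ≠ 0 := by omega
  have h1 : e.unpair.1 ≠ 1 := by omega
  have h2 : e.unpair.1 ≠ 2 := by omega
  have h3 : e.unpair.1 ≠ 3 := by omega
  have h4 : e.unpair.1 ≠ 4 := by omega
  simp [h0, h1, h2, h3, h4]

theorem cmdOf_code (c : Cmd) : cmdOf c.code = c := by
  induction c with
  | push v b =>
    rw [cmdOf_push (by simp [Cmd.code])]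
    simp only [Cmd.code, Nat.unpair_pair]
    cases b <;> simp
  | pop v =>
    rw [cmdOf_pop (by simp [Cmd.code])]
    simp [Cmd.code]
  | skip => rw [cmdOf_skip (by simp [Cmd.code])]
  | seq p q ih1 ih2 =>
    rw [cmdOf_seq (by simp [Cmd.code])]
    simp only [Cmd.code, Nat.unpair_pair, ih1, ih2]
  | ite v test p q ih1 ih2 =>
    rw [cmdOf_ite (by simp [Cmd.code])]
    simp only [Cmd.code, Nat.unpair_pair, ih1, ih2, testOf_testCode]
  | loop v test p ih =>
    rw [cmdOf_loop (by simp [Cmd.code])]
    simp only [Cmd.code, Nat.unpair_pair, ih, testOf_testCode]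

/-! ### stores as lists -/

/-- the store represented by a list -/
def sto (T : List (List Bool)) : Store := fun v => T.getD v []

/-- change of one register -/
def upd (T : List (List Bool)) (v : ℕ) (s : List Bool) : List (List Bool) :=
  (List.range (max T.length (v + 1))).map fun i => if i = v then s else T.getD i []

theorem sto_upd (T : List (List Bool)) (v : ℕ) (s : List Bool) :
    sto (upd T v s) = update (sto T) v s := by
  funext i
  rw [update_apply]
  unfold sto upd
  rw [List.getD_eq_getElem?_getD, List.getElem?_map]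
  by_cases h : i < max T.length (v + 1)
  · rw [List.getElem?_range h]
    simp
  · rw [List.getElem?_eq_none (by simpa using h)]
    have h1 : i ≠ v := by
      rintro rfl
      exact h (by omega)
    have h2 : T.length ≤ i := by
      have := not_lt.mp h
      omega
    simp [h1, h2]

/-! ### the interpreter -/

/-- one step; the first component lists the codes of the programs still to be executed -/
def istep (c : List ℕ × List (List Bool)) : List ℕ × List (List Bool) :=
  match c.1 with
  | [] => c
  | e :: K =>
    if e.unpair.1 = 0 then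
      (K, upd c.2 e.unpair.2.unpair.1
        (decide (e.unpair.2.unpair.2 ≠ 0) :: sto c.2 e.unpair.2.unpair.1))
    else if e.unpair.1 = 1 then (K, upd c.2 e.unpair.2 (sto c.2 e.unpair.2).tail)
    else if e.unpair.1 = 2 then (K, c.2)
    else if e.unpair.1 = 3 then (e.unpair.2.unpair.1 :: e.unpair.2.unpair.2 :: K, c.2)
    else if e.unpair.1 = 4 then
      (if testOf e.unpair.2.unpair.1.unpair.2 (sto c.2 e.unpair.2.unpair.1.unpair.1).head? then
        e.unpair.2.unpair.2.unpair.1 :: K else e.unpair.2.unpair.2.unpair.2 :: K, c.2)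
    else
      (if testOf e.unpair.2.unpair.1.unpair.2 (sto c.2 e.unpair.2.unpair.1.unpair.1).head? then
        e.unpair.2.unpair.2 :: e :: K else K, c.2)

theorem istep_nil (T : List (List Bool)) : istep ([], T) = ([], T) := rfl

theorem iter_nil (T : List (List Bool)) (t : ℕ) : istep^[t] ([], T) = ([], T) :=
  Function.iterate_fixed (istep_nil T) t

/-- a list of programs transforms the store -/
def RunsL : List ℕ → Store → Store → ℕ → Prop
  | [], S, S', _ => S = S'
  | e :: K, S, S', t => ∃ (S1 : Store) (t1 t2 : ℕ), t1 + t2 ≤ t ∧ Runs (cmdOf e) S S1 t1 ∧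
      RunsL K S1 S' t2

theorem RunsL.mono {L : List ℕ} {S S' : Store} {t t' : ℕ} (h : RunsL L S S' t) (ht : t ≤ t') :
    RunsL L S S' t' := by
  cases L with
  | nil => exact h
  | cons e K =>
    obtain ⟨S1, t1, t2, h1, h2, h3⟩ := h
    exact ⟨S1, t1, t2, by omega, h2, h3⟩

theorem RunsL.cons {e : ℕ} {K : List ℕ} {S S1 S' : Store} {t1 t2 : ℕ}
    (h1 : Runs (cmdOf e) S S1 t1) (h2 : RunsL K S1 S' t2) : RunsL (e :: K) S S' (t1 + t2) :=
  ⟨S1, t1, t2, le_rfl, h1, h2⟩

/-- if the interpreter halts then the programs run -/
theorem runsL_of_halt (t : ℕ) : ∀ (L : List ℕ) (T : List (List Bool)),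
    (istep^[t] (L, T)).1 = [] → RunsL L (sto T) (sto (istep^[t] (L, T)).2) t := by
  induction t with
  | zero =>
    intro L T h
    have hL : L = [] := h
    subst hL
    rfl
  | succ t ih =>
    intro L T h
    cases L with
    | nil =>
      rw [iter_nil]
      rfl
    | cons e K =>
      rw [Function.iterate_succ_apply] at h ⊢
      by_cases h0 : e.unpair.1 = 0
      · have hs : istep (e :: K, T) = (K, upd T e.unpair.2.unpair.1
          (decide (e.unpair.2.unpair.2 ≠ 0) :: sto T e.unpair.2.unpair.1)) := by
          simp only [istep, h0, if_true]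
        rw [hs] at h ⊢
        have h1 := ih _ _ h
        rw [sto_upd] at h1
        rw [Nat.add_comm]
        refine RunsL.cons ?_ h1
        rw [cmdOf_push h0]
        exact Runs.push _ _ _
      by_cases h1 : e.unpair.1 = 1
      · have hs : istep (e :: K, T) = (K, upd T e.unpair.2 (sto T e.unpair.2).tail) := by
          simp only [istep, h1]
          simp
        rw [hs] at h ⊢
        have h2 := ih _ _ h
        rw [sto_upd] at h2
        rw [Nat.add_comm]
        refine RunsL.cons ?_ h2
        rw [cmdOf_pop h1]
        exact Runs.pop _ _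
      by_cases h2 : e.unpair.1 = 2
      · have hs : istep (e :: K, T) = (K, T) := by
          simp only [istep, h2]
          simp
        rw [hs] at h ⊢
        rw [Nat.add_comm]
        refine RunsL.cons ?_ (ih _ _ h)
        rw [cmdOf_skip h2]
        exact Runs.skip _
      by_cases h3 : e.unpair.1 = 3
      · have hs : istep (e :: K, T) = (e.unpair.2.unpair.1 :: e.unpair.2.unpair.2 :: K, T) := by
          simp only [istep, h3]
          simp
        rw [hs] at h ⊢
        obtain ⟨S1, t1, t2, g1, g2, S2, t3, t4, g3, g4, g5⟩ := ih _ _ h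
        refine (RunsL.cons (t1 := t1 + t3) ?_ g5).mono (by omega)
        rw [cmdOf_seq h3]
        exact g2.seq g4
      by_cases h4 : e.unpair.1 = 4
      · cases htest : testOf e.unpair.2.unpair.1.unpair.2
          (sto T e.unpair.2.unpair.1.unpair.1).head? with
        | true =>
          have hs : istep (e :: K, T) = (e.unpair.2.unpair.2.unpair.1 :: K, T) := by
            simp only [istep, h4, htest]
            simp
          rw [hs] at h ⊢
          obtain ⟨S1, t1, t2, g1, g2, g3⟩ := ih _ _ h
          refine (RunsL.cons (t1 := 1 + t1) ?_ g3).mono (by omega)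
          rw [cmdOf_ite h4]
          exact Runs.ite_t htest g2
        | false =>
          have hs : istep (e :: K, T) = (e.unpair.2.unpair.2.unpair.2 :: K, T) := by
            simp only [istep, h4, htest]
            simp
          rw [hs] at h ⊢
          obtain ⟨S1, t1, t2, g1, g2, g3⟩ := ih _ _ h
          refine (RunsL.cons (t1 := 1 + t1) ?_ g3).mono (by omega)
          rw [cmdOf_ite h4]
          exact Runs.ite_f htest g2
      · cases htest : testOf e.unpair.2.unpair.1.unpair.2
          (sto T e.unpair.2.unpair.1.unpair.1).head? with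
        | true =>
          have hs : istep (e :: K, T) = (e.unpair.2.unpair.2 :: e :: K, T) := by
            simp only [istep, h0, h1, h2, h3, h4, htest]
            simp
          rw [hs] at h ⊢
          obtain ⟨S1, t1, t2, g1, g2, S2, t3, t4, g3, g4, g5⟩ := ih _ _ h
          refine (RunsL.cons (t1 := 1 + t1 + t3) ?_ g5).mono (by omega)
          rw [cmdOf_loop (by omega)] at g4 ⊢
          exact Runs.loop_t htest g2 g4
        | false =>
          have hs : istep (e :: K, T) = (K, T) := by
            simp only [istep, h0, h1, h2, h3, h4, htest]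
            simp
          rw [hs] at h ⊢
          refine (RunsL.cons (t1 := 1) ?_ (ih _ _ h)).mono (by omega)
          rw [cmdOf_loop (by omega)]
          exact Runs.loop_f htest

/-- if the program runs then the interpreter runs -/
theorem istep_of_exec {c : Cmd} {S S' : Store} {t : ℕ} (h : Exec c S S' t) :
    ∀ (K : List ℕ) (T : List (List Bool)), sto T = S → ∃ (t' : ℕ) (T' : List (List Bool)),
      t' + 1 ≤ 2 * t ∧ istep^[t'] (c.code :: K, T) = (K, T') ∧ sto T' = S' := by
  induction h with
  | push v b S =>
    rintro K T rfl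
    refine ⟨1, upd T v (b :: sto T v), by omega, ?_, sto_upd _ _ _⟩
    rw [Function.iterate_one]
    simp only [istep, Cmd.code, Nat.unpair_pair, if_true]
    cases b <;> simp
  | pop v S =>
    rintro K T rfl
    refine ⟨1, upd T v (sto T v).tail, by omega, ?_, sto_upd _ _ _⟩
    rw [Function.iterate_one]
    simp [istep, Cmd.code, Nat.unpair_pair]
  | skip S =>
    rintro K T rfl
    refine ⟨1, T, by omega, ?_, rfl⟩
    rw [Function.iterate_one]
    simp [istep, Cmd.code, Nat.unpair_pair]
  | @seq p q S S' S'' t t' _ _ ihp ihq =>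
    intro K T hT
    obtain ⟨t1, T1, h1, h2, h3⟩ := ihp (q.code :: K) T hT
    obtain ⟨t2, T2, h4, h5, h6⟩ := ihq K T1 h3
    refine ⟨t2 + (t1 + 1), T2, by omega, ?_, h6⟩
    have hs : istep ((Cmd.seq p q).code :: K, T) = (p.code :: q.code :: K, T) := by
      simp [istep, Cmd.code, Nat.unpair_pair]
    rw [Function.iterate_add_apply, Function.iterate_succ_apply, hs, h2, h5]
  | @ite_t v test p q S S' t htest _ ih =>
    intro K T hT
    obtain ⟨t1, T1, h1, h2, h3⟩ := ih K T hT
    refine ⟨t1 + 1, T1, by omega, ?_, h3⟩
    have hs : istep ((Cmd.ite v test p q).code :: K, T) = (p.code :: K, T) := by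
      subst hT
      simp [istep, Cmd.code, Nat.unpair_pair, testOf_testCode, htest]
    rw [Function.iterate_succ_apply, hs, h2]
  | @ite_f v test p q S S' t htest _ ih =>
    intro K T hT
    obtain ⟨t1, T1, h1, h2, h3⟩ := ih K T hT
    refine ⟨t1 + 1, T1, by omega, ?_, h3⟩
    have hs : istep ((Cmd.ite v test p q).code :: K, T) = (q.code :: K, T) := by
      subst hT
      simp [istep, Cmd.code, Nat.unpair_pair, testOf_testCode, htest]
    rw [Function.iterate_succ_apply, hs, h2]
  | @loop_f v test p S htest =>
    intro K T hT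
    refine ⟨1, T, by omega, ?_, hT⟩
    subst hT
    rw [Function.iterate_one]
    simp [istep, Cmd.code, Nat.unpair_pair, testOf_testCode, htest]
  | @loop_t v test p S S' S'' t t' htest _ _ ih1 ih2 =>
    intro K T hT
    obtain ⟨t1, T1, h1, h2, h3⟩ := ih1 ((Cmd.loop v test p).code :: K) T hT
    obtain ⟨t2, T2, h4, h5, h6⟩ := ih2 K T1 h3
    refine ⟨t2 + (t1 + 1), T2, by omega, ?_, h6⟩
    have hs : istep ((Cmd.loop v test p).code :: K, T) =
        (p.code :: (Cmd.loop v test p).code :: K, T) := by
      subst hT
      simp [istep, Cmd.code, Nat.unpair_pair, testOf_testCode, htest]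
    rw [Function.iterate_add_apply, Function.iterate_succ_apply, hs, h2, h5]

end Pool.Agent.PPMDec
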