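import Mathlib
import Pool.Agent.PPMDec.Interp

/-!
# The interpreter is primitive recursive
-/

set_option autoImplicit false
set_option linter.dupNamespace false

namespace Pool.Agent.PPMDec

open Function Pool.Agent.PT

variable {α β γ : Type} [Primcodable α] [Primcodable β] [Primcodable γ]

theorem prim_unpair1 {f : α → ℕ} (hf : Primrec f) : Primrec fun a => (f a).unpair.1 :=
  Primrec.fst.comp (Primrec.unpair.comp hf)

theorem prim_unpair2 {f : α → ℕ} (hf : Primrec f) : Primrec fun a => (f a).unpair.2 :=
  Primrec.snd.comp (Primrec.unpair.comp hf)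

theorem prim_eq_const {f : α → ℕ} (hf : Primrec f) (n : ℕ) : PrimrecPred fun a => f a = n :=
  Primrec.eq.comp hf (Primrec.const n)

theorem prim_ne_zero {f : α → ℕ} (hf : Primrec f) : Primrec fun a => decide (f a ≠ 0) :=
  (prim_eq_const hf 0).not.decide

theorem prim_testOf {f : α → ℕ} {g : α → Option Bool} (hf : Primrec f) (hg : Primrec g) :
    Primrec fun a => testOf (f a) (g a) := by
  have h := Primrec.option_casesOn (o := g) (f := fun a => decide ((f a).unpair.1 ≠ 0))
    (g := fun a b => cond b (decide ((f a).unpair.2.unpair.2 ≠ 0))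
      (decide ((f a).unpair.2.unpair.1 ≠ 0))) hg (prim_ne_zero (prim_unpair1 hf))
    (Primrec.cond Primrec.snd
      (prim_ne_zero (prim_unpair2 (prim_unpair2 (hf.comp Primrec.fst))))
      (prim_ne_zero (prim_unpair1 (prim_unpair2 (hf.comp Primrec.fst)))))
  refine h.of_eq fun a => ?_
  rcases g a with _ | _ | _ <;> rfl

theorem prim_sto {f : α → List (List Bool)} {g : α → ℕ} (hf : Primrec f) (hg : Primrec g) :
    Primrec fun a => sto (f a) (g a) :=
  (Primrec.list_getD []).comp hf hg

theorem prim_upd {f : α → List (List Bool)} {g : α → ℕ} {h : α → List Bool} (hf : Primrec f)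
    (hg : Primrec g) (hh : Primrec h) : Primrec fun a => upd (f a) (g a) (h a) := by
  refine Primrec.list_map (Primrec.list_range.comp (Primrec.nat_max.comp
    (Primrec.list_length.comp hf) (Primrec.succ.comp hg))) ?_
  exact Primrec.ite (Primrec.eq.comp Primrec.snd (hg.comp Primrec.fst)) (hh.comp Primrec.fst)
    ((Primrec.list_getD []).comp (hf.comp Primrec.fst) Primrec.snd)

theorem prim_istep : Primrec istep := by
  have hT : Primrec fun p : (List ℕ × List (List Bool)) × (ℕ × List ℕ) => p.1.2 :=
    Primrec.snd.comp Primrec.fst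
  have he : Primrec fun p : (List ℕ × List (List Bool)) × (ℕ × List ℕ) => p.2.1 :=
    Primrec.fst.comp Primrec.snd
  have hK : Primrec fun p : (List ℕ × List (List Bool)) × (ℕ × List ℕ) => p.2.2 :=
    Primrec.snd.comp Primrec.snd
  have ht := prim_unpair1 he
  have ha := prim_unpair2 he
  have htest : Primrec fun p : (List ℕ × List (List Bool)) × (ℕ × List ℕ) =>
      testOf p.2.1.unpair.2.unpair.1.unpair.2
        (sto p.1.2 p.2.1.unpair.2.unpair.1.unpair.1).head? :=
    prim_testOf (prim_unpair2 (prim_unpair1 ha))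
      (Primrec.list_head?.comp (prim_sto hT (prim_unpair1 (prim_unpair1 ha))))
  have htestp : PrimrecPred fun p : (List ℕ × List (List Bool)) × (ℕ × List ℕ) =>
      testOf p.2.1.unpair.2.unpair.1.unpair.2
        (sto p.1.2 p.2.1.unpair.2.unpair.1.unpair.1).head? = true :=
    Primrec.eq.comp htest (Primrec.const true)
  have hmain : Primrec fun p : (List ℕ × List (List Bool)) × (ℕ × List ℕ) =>
      (if p.2.1.unpair.1 = 0 then
        (p.2.2, upd p.1.2 p.2.1.unpair.2.unpair.1
          (decide (p.2.1.unpair.2.unpair.2 ≠ 0) :: sto p.1.2 p.2.1.unpair.2.unpair.1))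
      else if p.2.1.unpair.1 = 1 then
        (p.2.2, upd p.1.2 p.2.1.unpair.2 (sto p.1.2 p.2.1.unpair.2).tail)
      else if p.2.1.unpair.1 = 2 then (p.2.2, p.1.2)
      else if p.2.1.unpair.1 = 3 then
        (p.2.1.unpair.2.unpair.1 :: p.2.1.unpair.2.unpair.2 :: p.2.2, p.1.2)
      else if p.2.1.unpair.1 = 4 then
        (if testOf p.2.1.unpair.2.unpair.1.unpair.2
            (sto p.1.2 p.2.1.unpair.2.unpair.1.unpair.1).head? then
          p.2.1.unpair.2.unpair.2.unpair.1 :: p.2.2
        else p.2.1.unpair.2.unpair.2.unpair.2 :: p.2.2, p.1.2)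
      else
        (if testOf p.2.1.unpair.2.unpair.1.unpair.2
            (sto p.1.2 p.2.1.unpair.2.unpair.1.unpair.1).head? then
          p.2.1.unpair.2.unpair.2 :: p.2.1 :: p.2.2 else p.2.2, p.1.2) :
        List ℕ × List (List Bool)) := by
    refine Primrec.ite (prim_eq_const ht 0) ?_ (Primrec.ite (prim_eq_const ht 1) ?_
      (Primrec.ite (prim_eq_const ht 2) ?_ (Primrec.ite (prim_eq_const ht 3) ?_
      (Primrec.ite (prim_eq_const ht 4) ?_ ?_))))
    · exact hK.pair (prim_upd hT (prim_unpair1 ha) (Primrec.list_cons.comp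
        (prim_ne_zero (prim_unpair2 ha)) (prim_sto hT (prim_unpair1 ha))))
    · exact hK.pair (prim_upd hT ha (Primrec.list_tail.comp (prim_sto hT ha)))
    · exact hK.pair hT
    · exact (Primrec.list_cons.comp (prim_unpair1 ha)
        (Primrec.list_cons.comp (prim_unpair2 ha) hK)).pair hT
    · exact (Primrec.ite htestp (Primrec.list_cons.comp (prim_unpair1 (prim_unpair2 ha)) hK)
        (Primrec.list_cons.comp (prim_unpair2 (prim_unpair2 ha)) hK)).pair hT
    · exact (Primrec.ite htestp (Primrec.list_cons.comp (prim_unpair2 ha)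
        (Primrec.list_cons.comp he hK)) hK).pair hT
  have h := Primrec.list_casesOn (f := fun c : List ℕ × List (List Bool) => c.1)
    (g := fun c => c) Primrec.fst Primrec.id hmain.to₂
  refine h.of_eq fun c => ?_
  rcases c with ⟨_ | ⟨e, K⟩, T⟩
  · rfl
  · rfl

theorem prim_iter_istep {f : α → ℕ} {g : α → List ℕ × List (List Bool)} (hf : Primrec f)
    (hg : Primrec g) : Primrec fun a => istep^[f a] (g a) :=
  Primrec.nat_iterate hf hg (prim_istep.comp Primrec.snd)

end Pool.Agent.PPMDec
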