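import Mathlib
import Pool.Agent.PPMDec.InterpPrim

/-!
# Primitive recursive tools: bounded search, encodings, languages in NP
-/

set_option autoImplicit false
set_option linter.dupNamespace false

namespace Pool.Agent.PPMDec

open Function Pool.Agent.PT N487b59b3

section

variable {α β γ δ : Type} [Primcodable α] [Primcodable β] [Primcodable γ] [Primcodable δ]

theorem prim_exists {f : δ → List α} {R : δ → α → Prop} (hf : Primrec f)
    (hR : PrimrecPred fun p : δ × α => R p.1 p.2) : PrimrecPred fun d => ∃ a ∈ f d, R d a := by
  have h1 : PrimrecRel fun (a : α) (d : δ) => R d a := PrimrecRel.swap (r := R) hR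
  exact (PrimrecRel.exists_mem_list h1).comp hf Primrec.id

theorem prim_forall {f : δ → List α} {R : δ → α → Prop} (hf : Primrec f)
    (hR : PrimrecPred fun p : δ × α => R p.1 p.2) : PrimrecPred fun d => ∀ a ∈ f d, R d a := by
  have h1 : PrimrecRel fun (a : α) (d : δ) => R d a := PrimrecRel.swap (r := R) hR
  exact (PrimrecRel.forall_mem_list h1).comp hf Primrec.id

theorem prim_exists_lt {f : δ → ℕ} {R : δ → ℕ → Prop} (hf : Primrec f)
    (hR : PrimrecPred fun p : δ × ℕ => R p.1 p.2) : PrimrecPred fun d => ∃ a < f d, R d a :=
  (prim_exists (Primrec.list_range.comp hf) hR).of_eq fun d => by simp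

theorem prim_forall_lt {f : δ → ℕ} {R : δ → ℕ → Prop} (hf : Primrec f)
    (hR : PrimrecPred fun p : δ × ℕ => R p.1 p.2) : PrimrecPred fun d => ∀ a < f d, R d a :=
  (prim_forall (Primrec.list_range.comp hf) hR).of_eq fun d => by simp

theorem prim_imp {p q : α → Prop} (hp : PrimrecPred p) (hq : PrimrecPred q) :
    PrimrecPred fun a => p a → q a :=
  (hp.not.or hq).of_eq fun a => by tauto

theorem prim_iff {p q : α → Prop} (hp : PrimrecPred p) (hq : PrimrecPred q) :
    PrimrecPred fun a => (p a ↔ q a) :=
  ((prim_imp hp hq).and (prim_imp hq hp)).of_eq fun a => by tauto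

/-- all lists of length at most `n` with entries in `A` -/
def tup {α : Type} (A : List α) : ℕ → List (List α)
  | 0 => [[]]
  | n + 1 => [] :: (tup A n).flatMap fun t => A.map fun a => a :: t

omit [Primcodable α] in
theorem mem_tup {A : List α} {n : ℕ} {l : List α} :
    l ∈ tup A n ↔ l.length ≤ n ∧ ∀ a ∈ l, a ∈ A := by
  induction n generalizing l with
  | zero =>
    simp only [tup, List.mem_singleton]
    constructor
    · rintro rfl
      simp
    · rintro ⟨h, _⟩
      exact List.length_eq_zero_iff.mp (Nat.le_zero.mp h)
  | succ n ih =>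
    simp only [tup, List.mem_cons, List.mem_flatMap, List.mem_map]
    constructor
    · rintro (rfl | ⟨t, ht, a, ha, rfl⟩)
      · simp
      · rw [ih] at ht
        refine ⟨by simpa using ht.1, ?_⟩
        intro b hb
        rcases List.mem_cons.mp hb with rfl | hb
        · exact ha
        · exact ht.2 b hb
    · rintro ⟨h1, h2⟩
      cases l with
      | nil => exact Or.inl rfl
      | cons a t =>
        refine Or.inr ⟨t, ih.mpr ⟨by simpa using h1, fun b hb => h2 b (List.mem_cons_of_mem _ hb)⟩,
          a, h2 a List.mem_cons_self, rfl⟩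

theorem prim_tup {f : δ → List α} {g : δ → ℕ} (hf : Primrec f) (hg : Primrec g) :
    Primrec fun d => tup (f d) (g d) := by
  have h := Primrec.nat_rec' (f := g) (g := fun _ => ([[]] : List (List α)))
    (h := fun d (p : ℕ × List (List α)) => [] :: p.2.flatMap fun t => (f d).map fun a => a :: t)
    hg (Primrec.const _) (by
      refine Primrec.list_cons.comp (Primrec.const []) ?_
      refine Primrec.list_flatMap (Primrec.snd.comp Primrec.snd) ?_
      refine Primrec.list_map (hf.comp (Primrec.fst.comp Primrec.fst)) ?_
      exact Primrec.list_cons.comp Primrec.snd (Primrec.snd.comp Primrec.fst))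
  refine h.of_eq fun d => ?_
  induction g d with
  | zero => rfl
  | succ n ih => rw [tup, ← ih]

theorem prim_pow {f g : α → ℕ} (hf : Primrec f) (hg : Primrec g) :
    Primrec fun a => f a ^ g a :=
  (Primrec₂.unpaired'.1 Nat.Primrec.pow).comp hf hg

theorem prim_poly (p : Polynomial ℕ) : Primrec fun n : ℕ => p.eval n := by
  induction p using Polynomial.induction_on' with
  | add p q hp hq => exact (Primrec.nat_add.comp hp hq).of_eq fun a => by simp
  | monomial n c =>
    exact (Primrec.nat_mul.comp (Primrec.const c) (prim_pow Primrec.id (Primrec.const n))).of_eq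
      fun a => by simp

theorem prim_replicate {f : δ → ℕ} (hf : Primrec f) (b : α) :
    Primrec fun d => List.replicate (f d) b :=
  (Primrec.list_map (g := fun (_ : δ) (_ : ℕ) => b) (Primrec.list_range.comp hf)
    (Primrec₂.const b)).of_eq fun d => by simp

/-! ### encodings -/

theorem delimit_eq_flatMap (l : List Bool) :
    delimit l = l.flatMap (fun b => [true, b]) ++ [false] := by
  induction l with
  | nil => rfl
  | cons b l ih => simp [delimit, ih]

theorem prim_delimit : Primrec delimit := by
  refine (Primrec.list_append.comp (Primrec.list_flatMap Primrec.id (g := fun _ b => [true, b])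
    ?_) (Primrec.const [false])).of_eq fun l => (delimit_eq_flatMap l).symm
  exact (Primrec.dom_bool fun b => [true, b]).comp Primrec.snd

theorem prim_encBits : Primrec fun l : List Bool => (enc l : List Bool) := by
  refine (Primrec.list_flatMap Primrec.id (g := fun _ b => delimit [b])
    ((Primrec.dom_bool fun b => delimit [b]).comp Primrec.snd)).of_eq fun l => ?_
  induction l with
  | nil => rfl
  | cons b l ih => simp only [id, List.flatMap_cons] at ih ⊢; rw [ih]; rfl

theorem enc_prod {α β : Type} [N487b59b3 α] [N487b59b3 β] (a : α) (b : β) :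
    enc (a, b) = delimit (enc a) ++ enc b := rfl

/-- the encoding of a list of naturals in unary -/
def encNats (l : List ℕ) : List Bool := l.flatMap fun n => delimit (List.replicate n false)

theorem prim_encNats : Primrec encNats :=
  Primrec.list_flatMap Primrec.id (prim_delimit.comp (prim_replicate Primrec.snd false))

theorem enc_listU (l : List ℕ) : enc (l.map U.mk) = encNats l := by
  induction l with
  | nil => rfl
  | cons n l ih => rw [List.map_cons, encNats, List.flatMap_cons, ← encNats, ← ih]; rfl

theorem length_encNats (l : List ℕ) : l.length ≤ (encNats l).length := by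
  induction l with
  | nil => simp
  | cons n l ih =>
    rw [encNats, List.flatMap_cons, ← encNats, List.length_append, length_delimit]
    simp only [List.length_cons]
    omega

theorem encNats_injective : Injective encNats := by
  intro l m h
  rw [← enc_listU, ← enc_listU] at h
  have h1 := bitEncode_injective h
  exact List.map_injective_iff.mpr (fun a b h => by simpa using h) h1

/-! ### polynomial-time functions are primitive recursive -/

/-- the interpreter, started with one program and one register -/
def run (e : ℕ) (l : List Bool) (t : ℕ) : List ℕ × List (List Bool) := istep^[t] ([e], [l])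

theorem prim_run {f : δ → ℕ} {g : δ → List Bool} {h : δ → ℕ} (hf : Primrec f) (hg : Primrec g)
    (hh : Primrec h) : Primrec fun d => run (f d) (g d) (h d) :=
  prim_iter_istep hh ((Primrec.list_cons.comp hf (Primrec.const [])).pair
    (Primrec.list_cons.comp hg (Primrec.const [])))

theorem sto_single (l : List Bool) : sto [l] = single 0 l := by
  funext v
  unfold sto single
  rcases v with _ | v
  · simp
  · simp

theorem run_of_runs {c : Cmd} {l l' : List Bool} {t T : ℕ}
    (h : Runs c (single 0 l) (single 0 l') t) (hT : 2 * t ≤ T) :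
    (run c.code l T).1 = [] ∧ sto (run c.code l T).2 = single 0 l' := by
  obtain ⟨t1, ht1, he⟩ := h
  obtain ⟨t', T', h1, h2, h3⟩ := istep_of_exec he [] [l] (sto_single l)
  obtain ⟨d, hd⟩ : ∃ d, T = d + t' := ⟨T - t', by omega⟩
  have h4 : run c.code l T = ([], T') := by
    rw [run, hd, Function.iterate_add_apply, h2, iter_nil]
  rw [h4]
  exact ⟨rfl, h3⟩

theorem runs_of_run {e : ℕ} {l : List Bool} {S : Store} {T : ℕ} (h : (run e l T).1 = [])
    (hS : sto (run e l T).2 = S) : Runs (cmdOf e) (single 0 l) S T := by
  obtain ⟨S1, t1, t2, h1, h2, h3⟩ := runsL_of_halt T [e] [l] h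
  rw [sto_single] at h2
  have h4 : S1 = S := Eq.trans h3 hS
  rw [← h4]
  exact h2.mono (by omega)

end

theorem exists_primrec {α β : Type} [N487b59b3 α] [N487b59b3 β] {f : α → β} (h : PT f) :
    ∃ F : List Bool → List Bool, Primrec F ∧ ∀ a, F (enc a) = enc (f a) := by
  obtain ⟨c, p, hc⟩ := h
  refine ⟨fun l => sto (run c.code l (2 * p.eval l.length)).2 0, ?_, fun a => ?_⟩
  · exact prim_sto (Primrec.snd.comp (prim_run (Primrec.const _) Primrec.id
      (Primrec.nat_mul.comp (Primrec.const 2) ((prim_poly p).comp Primrec.list_length))))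
      (Primrec.const 0)
  · have h1 := (run_of_runs (hc a) (le_refl (2 * p.eval (enc a).length))).2
    show sto (run c.code (enc a) (2 * p.eval (enc a).length)).2 0 = enc (f a)
    rw [h1]
    simp [single]

theorem mem_bits (w : List Bool) (n : ℕ) : w ∈ tup [false, true] n ↔ w.length ≤ n := by
  rw [mem_tup]
  constructor
  · exact fun h => h.1
  · intro h
    refine ⟨h, fun b _ => ?_⟩
    cases b <;> simp

/-- languages in NP are primitive recursive -/
theorem primrec_of_mem_np {L : List Bool → Bool} (hL : L ∈ N68a2faeb.NP) : Primrec L := by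
  classical
  obtain ⟨p, R, hR, hw⟩ := hL
  obtain ⟨F, hF, hF2⟩ := exists_primrec (PT.of_isPolyTime hR)
  have h1 : PrimrecPred fun x : List Bool => ∃ w ∈ tup [false, true] (p.eval x.length),
      F (delimit (enc x) ++ enc w) = [true] := by
    refine prim_exists (R := fun (x w : List Bool) => F (delimit (enc x) ++ enc w) = [true])
      (prim_tup (Primrec.const [false, true]) ((prim_poly p).comp Primrec.list_length)) ?_
    exact Primrec.eq.comp (hF.comp (Primrec.list_append.comp
      (prim_delimit.comp (prim_encBits.comp Primrec.fst)) (prim_encBits.comp Primrec.snd)))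
      (Primrec.const [true])
  refine h1.decide.of_eq fun x => ?_
  rw [Bool.eq_iff_iff, decide_eq_true_iff, hw x]
  constructor
  · rintro ⟨w, hw1, hw2⟩
    refine ⟨w, (mem_bits w _).mp hw1, ?_⟩
    have h2 := hF2 (x, w)
    rw [enc_prod, hw2] at h2
    have h3 : enc (R (x, w)) = [R (x, w)] := rfl
    rw [h3] at h2
    simpa using h2.symm
  · rintro ⟨w, hw1, hw2⟩
    refine ⟨w, (mem_bits w _).mpr hw1, ?_⟩
    rw [← enc_prod, hF2, hw2]
    rfl

end Pool.Agent.PPMDec
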