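import Mathlib
import Pool.Agent.PPMDec.Tools
import Pool.Agent.Lib_helper89.PPM.Defs

/-!
# Permutations as lists; containment is primitive recursive
-/

set_option autoImplicit false
set_option linter.dupNamespace false

namespace Pool.Agent.PPMDec

open Function Pool.Agent.PT Pool.Agent.PPM N487b59b3

/-- the list of values of a permutation -/
def vals (π : Permutation) : List ℕ := List.ofFn fun i => (π.2 i).val

@[simp]
theorem length_vals (π : Permutation) : (vals π).length = π.1 := by simp [vals]

theorem values_eq (π : Permutation) : values π = (vals π).map U.mk := by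
  simp [values, vals, List.map_ofFn, Function.comp_def]

theorem vals_injective : Injective vals := by
  intro π σ h
  apply values_injective
  rw [values_eq, values_eq, h]

theorem enc_perm (π : Permutation) : enc π = encNats (vals π) := by
  rw [← enc_listU, ← values_eq]
  rfl

theorem vals_getD (π : Permutation) (i : Fin π.1) : (vals π).getD i 0 = (π.2 i).val := by
  rw [List.getD_eq_getElem?_getD, List.getElem?_eq_getElem (by simp)]
  simp [vals]

/-- the list is the list of values of a permutation -/
def IsPerm (l : List ℕ) : Prop := ∀ i < l.length, i ∈ l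

theorem isPerm_vals (π : Permutation) : IsPerm (vals π) := by
  intro i hi
  rw [length_vals] at hi
  rw [vals, List.mem_ofFn]
  exact ⟨π.2.symm ⟨i, hi⟩, by simp⟩

theorem IsPerm.nodup {l : List ℕ} (h : IsPerm l) : l.Nodup := by
  have h1 : List.range l.length ⊆ l := fun i hi => h i (List.mem_range.mp hi)
  have h2 : (List.range l.length).Perm l :=
    ((List.subperm_of_subset List.nodup_range h1).perm_of_length_le (by simp))
  exact h2.nodup_iff.mp List.nodup_range

theorem IsPerm.perm {l : List ℕ} (h : IsPerm l) : (List.range l.length).Perm l := by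
  have h1 : List.range l.length ⊆ l := fun i hi => h i (List.mem_range.mp hi)
  exact ((List.subperm_of_subset List.nodup_range h1).perm_of_length_le (by simp))

theorem IsPerm.lt {l : List ℕ} (h : IsPerm l) {a : ℕ} (ha : a ∈ l) : a < l.length := by
  rw [← List.mem_range]
  exact h.perm.mem_iff.mpr ha

theorem exists_vals_eq {l : List ℕ} (h : IsPerm l) : ∃ π : Permutation, vals π = l := by
  let f : Fin l.length → Fin l.length := fun i => ⟨l[i.1], h.lt (List.getElem_mem _)⟩
  have hf : Injective f := by
    intro i j hij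
    have h1 : l[i.1] = l[j.1] := congrArg Fin.val hij
    exact Fin.ext ((List.Nodup.getElem_inj_iff h.nodup).mp h1)
  refine ⟨⟨l.length, Equiv.ofBijective f ⟨hf, Finite.injective_iff_surjective.mp hf⟩⟩, ?_⟩
  apply List.ext_getElem
  · simp [vals]
  · intro i h1 h2
    simp only [vals, List.getElem_ofFn]
    rfl

theorem isPerm_iff {l : List ℕ} : IsPerm l ↔ ∃ π : Permutation, vals π = l :=
  ⟨exists_vals_eq, by rintro ⟨π, rfl⟩; exact isPerm_vals π⟩

/-- `p` lists the positions of an occurrence of `s` in `t` -/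
def Occ (t s p : List ℕ) : Prop :=
  p.length = s.length ∧ ∀ i < s.length, ∀ j < s.length,
    (i < j → p.getD i 0 < p.getD j 0) ∧
      (s.getD i 0 < s.getD j 0 ↔ t.getD (p.getD i 0) 0 < t.getD (p.getD j 0) 0)

/-- containment of lists -/
def ContL (t s : List ℕ) : Prop := ∃ p ∈ tup (List.range t.length) s.length, Occ t s p

theorem contL_iff (τ σ : Permutation) : ContL (vals τ) (vals σ) ↔ Contains τ σ := by
  constructor
  · rintro ⟨p, hp, h1, h2⟩
    rw [mem_tup] at hp
    rw [length_vals] at h1 h2 hp
    rw [length_vals] at hp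
    have hlt : ∀ i : Fin σ.1, p.getD i 0 < τ.1 := by
      intro i
      rw [List.getD_eq_getElem?_getD, List.getElem?_eq_getElem (by omega)]
      exact List.mem_range.mp (hp.2 _ (List.getElem_mem _))
    refine ⟨fun i => ⟨p.getD i 0, hlt i⟩, fun i j hij => (h2 i i.2 j j.2).1 hij, fun i j => ?_⟩
    have h3 := (h2 i i.2 j j.2).2
    have e1 := vals_getD σ i
    have e2 := vals_getD σ j
    have e3 := vals_getD τ ⟨p.getD i 0, hlt i⟩
    have e4 := vals_getD τ ⟨p.getD j 0, hlt j⟩
    simp only at e1 e2 e3 e4
    rw [e1, e2, e3, e4] at h3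
    exact h3
  · rintro ⟨f, hf, hf2⟩
    have hget : ∀ i (hi : i < σ.1), (List.ofFn fun i => (f i).val).getD i 0 = (f ⟨i, hi⟩).val := by
      intro i hi
      rw [List.getD_eq_getElem?_getD, List.getElem?_eq_getElem (by simpa using hi)]
      simp
    refine ⟨List.ofFn fun i => (f i).val, ?_, ?_, ?_⟩
    · rw [mem_tup]
      refine ⟨by simp, ?_⟩
      intro a ha
      rw [List.mem_ofFn] at ha
      obtain ⟨i, rfl⟩ := ha
      simp
    · simp
    · intro i hi j hj
      rw [length_vals] at hi hj
      rw [hget i hi, hget j hj]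
      have e1 := vals_getD σ ⟨i, hi⟩
      have e2 := vals_getD σ ⟨j, hj⟩
      have e3 := vals_getD τ (f ⟨i, hi⟩)
      have e4 := vals_getD τ (f ⟨j, hj⟩)
      simp only at e1 e2 e3 e4
      rw [e1, e2, e3, e4]
      refine ⟨fun hij => hf (show (⟨i, hi⟩ : Fin σ.1) < ⟨j, hj⟩ from hij), ?_⟩
      exact hf2 ⟨i, hi⟩ ⟨j, hj⟩

section

variable {α δ : Type} [Primcodable α] [Primcodable δ]

theorem prim_mem [DecidableEq α] {f : δ → α} {g : δ → List α} (hf : Primrec f) (hg : Primrec g) :
    PrimrecPred fun d => f d ∈ g d := by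
  refine (prim_exists (R := fun d a => a = f d) hg
    (Primrec.eq.comp Primrec.snd (hf.comp Primrec.fst))).of_eq fun d => ?_
  simp

theorem prim_isPerm {f : δ → List ℕ} (hf : Primrec f) : PrimrecPred fun d => IsPerm (f d) :=
  prim_forall_lt (R := fun d i => i ∈ f d) (Primrec.list_length.comp hf)
    (prim_mem Primrec.snd (hf.comp Primrec.fst))

theorem prim_occ {t s p : δ → List ℕ} (ht : Primrec t) (hs : Primrec s) (hp : Primrec p) :
    PrimrecPred fun d => Occ (t d) (s d) (p d) := by
  refine (Primrec.eq.comp (Primrec.list_length.comp hp) (Primrec.list_length.comp hs)).and ?_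
  refine prim_forall_lt (R := fun d i => ∀ j < (s d).length,
    (i < j → (p d).getD i 0 < (p d).getD j 0) ∧
      ((s d).getD i 0 < (s d).getD j 0 ↔
        (t d).getD ((p d).getD i 0) 0 < (t d).getD ((p d).getD j 0) 0))
    (Primrec.list_length.comp hs) ?_
  refine prim_forall_lt (R := fun (d : δ × ℕ) j => (d.2 < j →
    (p d.1).getD d.2 0 < (p d.1).getD j 0) ∧
      ((s d.1).getD d.2 0 < (s d.1).getD j 0 ↔
        (t d.1).getD ((p d.1).getD d.2 0) 0 < (t d.1).getD ((p d.1).getD j 0) 0))
    (Primrec.list_length.comp (hs.comp Primrec.fst)) ?_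
  have hi : Primrec fun d : (δ × ℕ) × ℕ => d.1.2 := Primrec.snd.comp Primrec.fst
  have hj : Primrec fun d : (δ × ℕ) × ℕ => d.2 := Primrec.snd
  have hd : Primrec fun d : (δ × ℕ) × ℕ => d.1.1 := Primrec.fst.comp Primrec.fst
  have gp : ∀ {i : (δ × ℕ) × ℕ → ℕ}, Primrec i → Primrec fun d => (p d.1.1).getD (i d) 0 :=
    fun h => (Primrec.list_getD 0).comp (hp.comp hd) h
  have gs : ∀ {i : (δ × ℕ) × ℕ → ℕ}, Primrec i → Primrec fun d => (s d.1.1).getD (i d) 0 :=
    fun h => (Primrec.list_getD 0).comp (hs.comp hd) h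
  have gt : ∀ {i : (δ × ℕ) × ℕ → ℕ}, Primrec i → Primrec fun d => (t d.1.1).getD (i d) 0 :=
    fun h => (Primrec.list_getD 0).comp (ht.comp hd) h
  exact (prim_imp (Primrec.nat_lt.comp hi hj) (Primrec.nat_lt.comp (gp hi) (gp hj))).and
    (prim_iff (Primrec.nat_lt.comp (gs hi) (gs hj)) (Primrec.nat_lt.comp (gt (gp hi)) (gt (gp hj))))

theorem prim_contL {t s : δ → List ℕ} (ht : Primrec t) (hs : Primrec s) :
    PrimrecPred fun d => ContL (t d) (s d) :=
  prim_exists (R := fun d p => Occ (t d) (s d) p)
    (prim_tup (Primrec.list_range.comp (Primrec.list_length.comp ht))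
      (Primrec.list_length.comp hs))
    (prim_occ (ht.comp Primrec.fst) (hs.comp Primrec.fst) Primrec.snd)

end

end Pool.Agent.PPMDec
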