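import Mathlib
import Pool.Agent.Lib_helper89.PPM.Width

/-!
# Hierarchical decompositions, the width being counted by runs

`RB X S A` is the set of the points of `A` whose successor in `S` (in the order of the coordinate
`X`) exists and is not in `A`, `LB X S A` the same with predecessors. `RDec X Y S g A` says that
`A` can be built from single points by disjoint unions in such a way that for all intermediate sets
the four sets `RB X`, `LB X`, `RB Y`, `LB Y` have at most `g` elements. This notion is monotone in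
the set `S`, so the permutations of bounded width form a class.
-/

set_option autoImplicit false

namespace Pool.Agent.PPM

section defs

variable {α : Type*} [DecidableEq α]

open Classical in
/-- the points of `A` whose successor in `S` is not in `A` -/
noncomputable def RB (X : α → ℤ) (S A : Finset α) : Finset α :=
  A.filter fun p => ∃ q, Next X S p q ∧ q ∉ A

open Classical in
/-- the points of `A` whose predecessor in `S` is not in `A` -/
noncomputable def LB (X : α → ℤ) (S A : Finset α) : Finset α :=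
  A.filter fun p => ∃ q, Next X S q p ∧ q ∉ A

omit [DecidableEq α] in
theorem mem_RB {X : α → ℤ} {S A : Finset α} {p : α} :
    p ∈ RB X S A ↔ p ∈ A ∧ ∃ q, Next X S p q ∧ q ∉ A := by
  simp [RB]

omit [DecidableEq α] in
theorem mem_LB {X : α → ℤ} {S A : Finset α} {p : α} :
    p ∈ LB X S A ↔ p ∈ A ∧ ∃ q, Next X S q p ∧ q ∉ A := by
  simp [LB]

/-- hierarchical decompositions with few runs -/
inductive RDec (X Y : α → ℤ) (S : Finset α) (g : ℕ) : Finset α → Prop
  | empty : RDec X Y S g ∅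
  | single {p : α} : p ∈ S → RDec X Y S g {p}
  | union {A B : Finset α} : RDec X Y S g A → RDec X Y S g B → Disjoint A B →
      (RB X S (A ∪ B)).card ≤ g → (LB X S (A ∪ B)).card ≤ g →
      (RB Y S (A ∪ B)).card ≤ g → (LB Y S (A ∪ B)).card ≤ g → RDec X Y S g (A ∪ B)

theorem RDec.subset {X Y : α → ℤ} {S : Finset α} {g : ℕ} {A : Finset α} (h : RDec X Y S g A) :
    A ⊆ S := by
  induction h with
  | empty => exact Finset.empty_subset _
  | single h => exact Finset.singleton_subset_iff.mpr h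
  | union _ _ _ _ _ _ _ ih1 ih2 => exact Finset.union_subset ih1 ih2

theorem RDec.mono {X Y : α → ℤ} {S : Finset α} {g g' : ℕ} (hg : g ≤ g') {A : Finset α}
    (h : RDec X Y S g A) : RDec X Y S g' A := by
  induction h with
  | empty => exact RDec.empty
  | single h => exact RDec.single h
  | union _ _ h0 h1 h2 h3 h4 ih1 ih2 =>
    exact RDec.union ih1 ih2 h0 (h1.trans hg) (h2.trans hg) (h3.trans hg) (h4.trans hg)

theorem RB_X_subset_bd (X Y : α → ℤ) (S A : Finset α) : RB X S A ⊆ bd X Y S A := by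
  intro p hp
  obtain ⟨h1, q, h2, h3⟩ := mem_RB.mp hp
  exact mem_bd.mpr ⟨h1, q, h2.2.1, h3, Or.inl h2⟩

theorem LB_X_subset_bd (X Y : α → ℤ) (S A : Finset α) : LB X S A ⊆ bd X Y S A := by
  intro p hp
  obtain ⟨h1, q, h2, h3⟩ := mem_LB.mp hp
  exact mem_bd.mpr ⟨h1, q, h2.1, h3, Or.inr (Or.inl h2)⟩

theorem RB_Y_subset_bd (X Y : α → ℤ) (S A : Finset α) : RB Y S A ⊆ bd X Y S A := by
  intro p hp
  obtain ⟨h1, q, h2, h3⟩ := mem_RB.mp hp
  exact mem_bd.mpr ⟨h1, q, h2.2.1, h3, Or.inr (Or.inr (Or.inl h2))⟩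

theorem LB_Y_subset_bd (X Y : α → ℤ) (S A : Finset α) : LB Y S A ⊆ bd X Y S A := by
  intro p hp
  obtain ⟨h1, q, h2, h3⟩ := mem_LB.mp hp
  exact mem_bd.mpr ⟨h1, q, h2.1, h3, Or.inr (Or.inr (Or.inr h2))⟩

theorem Dec.rdec {X Y : α → ℤ} {S : Finset α} {g : ℕ} {A : Finset α} (h : Dec X Y S g A) :
    RDec X Y S g A := by
  induction h with
  | empty => exact RDec.empty
  | single h => exact RDec.single h
  | union _ _ h0 h1 ih1 ih2 =>
    exact RDec.union ih1 ih2 h0
      ((Finset.card_le_card (RB_X_subset_bd X Y S _)).trans h1)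
      ((Finset.card_le_card (LB_X_subset_bd X Y S _)).trans h1)
      ((Finset.card_le_card (RB_Y_subset_bd X Y S _)).trans h1)
      ((Finset.card_le_card (LB_Y_subset_bd X Y S _)).trans h1)

theorem card_bd_le (X Y : α → ℤ) (S A : Finset α) :
    (bd X Y S A).card ≤
      (RB X S A).card + (LB X S A).card + ((RB Y S A).card + (LB Y S A).card) := by
  refine le_trans (Finset.card_le_card (t := (RB X S A ∪ LB X S A) ∪ (RB Y S A ∪ LB Y S A)) ?_)
    ((Finset.card_union_le _ _).trans
      (add_le_add (Finset.card_union_le _ _) (Finset.card_union_le _ _)))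
  intro p hp
  obtain ⟨h1, q, h2, h3, h4⟩ := mem_bd.mp hp
  simp only [Finset.mem_union, mem_RB, mem_LB]
  rcases h4 with h | h | h | h
  · exact Or.inl (Or.inl ⟨h1, q, h, h3⟩)
  · exact Or.inl (Or.inr ⟨h1, q, h, h3⟩)
  · exact Or.inr (Or.inl ⟨h1, q, h, h3⟩)
  · exact Or.inr (Or.inr ⟨h1, q, h, h3⟩)

theorem RDec.dec {X Y : α → ℤ} {S : Finset α} {g : ℕ} {A : Finset α} (h : RDec X Y S g A) :
    Dec X Y S (4 * g) A := by
  induction h with
  | empty => exact Dec.empty
  | single h => exact Dec.single h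
  | @union A B _ _ h0 h1 h2 h3 h4 ih1 ih2 =>
    refine Dec.union ih1 ih2 h0 ((card_bd_le X Y S (A ∪ B)).trans ?_)
    omega

theorem rdec_of_card_le {X Y : α → ℤ} {S : Finset α} {g : ℕ}
    (hS : S.card ≤ g) {A : Finset α} (hA : A ⊆ S) : RDec X Y S g A :=
  (dec_of_card_le hS hA).rdec

/-! ### monotonicity in `S` -/

theorem card_RB_inter_le {X : α → ℤ} {S S' A : Finset α} (hX : Set.InjOn X S) (hS : S' ⊆ S)
    (hA : A ⊆ S) : (RB X S' (A ∩ S')).card ≤ (RB X S A).card := by
  have key : ∀ p ∈ RB X S' (A ∩ S'), ∃ r, r ∈ RB X S A ∧ X p ≤ X r ∧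
      ∀ p' ∈ S', X p < X p' → X r < X p' := by
    intro p hp
    obtain ⟨h1, q, h2, h3⟩ := mem_RB.mp hp
    rw [Finset.mem_inter] at h1
    have hqA : q ∉ A := fun h => h3 (Finset.mem_inter.mpr ⟨h, h2.2.1⟩)
    obtain ⟨r, s, hr, hs, hsA, hn, hpr, hsq⟩ :=
      exists_next_right hX hA h1.1 (hS h2.2.1) hqA h2.2.2.1
    refine ⟨r, mem_RB.mpr ⟨hr, s, hn, hsA⟩, hpr, fun p' hp' hlt => ?_⟩
    have h4 := hn.2.2.1
    rcases h2.2.2.2 p' hp' with h5 | h5
    · omega
    · omega
  choose! f hf using key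
  refine Finset.card_le_card_of_injOn f (fun p hp => (hf p hp).1) ?_
  intro p hp p' hp' hff
  rw [Finset.mem_coe] at hp hp'
  have hpS : p ∈ S' := (Finset.mem_inter.mp (mem_RB.mp hp).1).2
  have hpS' : p' ∈ S' := (Finset.mem_inter.mp (mem_RB.mp hp').1).2
  rcases lt_trichotomy (X p) (X p') with h | h | h
  · have h1 := (hf p hp).2.2 p' hpS' h
    have h2 := (hf p' hp').2.1
    rw [hff] at h1
    omega
  · exact hX (hS hpS) (hS hpS') h
  · have h1 := (hf p' hp').2.2 p hpS h
    have h2 := (hf p hp).2.1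
    rw [← hff] at h1
    omega

theorem card_LB_inter_le {X : α → ℤ} {S S' A : Finset α} (hX : Set.InjOn X S) (hS : S' ⊆ S)
    (hA : A ⊆ S) : (LB X S' (A ∩ S')).card ≤ (LB X S A).card := by
  have key : ∀ p ∈ LB X S' (A ∩ S'), ∃ r, r ∈ LB X S A ∧ X r ≤ X p ∧
      ∀ p' ∈ S', X p' < X p → X p' < X r := by
    intro p hp
    obtain ⟨h1, q, h2, h3⟩ := mem_LB.mp hp
    rw [Finset.mem_inter] at h1
    have hqA : q ∉ A := fun h => h3 (Finset.mem_inter.mpr ⟨h, h2.1⟩)
    obtain ⟨s, r, hr, hs, hsA, hn, hpr, hsq⟩ :=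
      exists_next_left hX hA h1.1 (hS h2.1) hqA h2.2.2.1
    refine ⟨r, mem_LB.mpr ⟨hr, s, hn, hsA⟩, hpr, fun p' hp' hlt => ?_⟩
    have h4 := hn.2.2.1
    rcases h2.2.2.2 p' hp' with h5 | h5
    · omega
    · omega
  choose! f hf using key
  refine Finset.card_le_card_of_injOn f (fun p hp => (hf p hp).1) ?_
  intro p hp p' hp' hff
  rw [Finset.mem_coe] at hp hp'
  have hpS : p ∈ S' := (Finset.mem_inter.mp (mem_LB.mp hp).1).2
  have hpS' : p' ∈ S' := (Finset.mem_inter.mp (mem_LB.mp hp').1).2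
  rcases lt_trichotomy (X p) (X p') with h | h | h
  · have h1 := (hf p' hp').2.2 p hpS h
    have h2 := (hf p hp).2.1
    rw [← hff] at h1
    omega
  · exact hX (hS hpS) (hS hpS') h
  · have h1 := (hf p hp).2.2 p' hpS' h
    have h2 := (hf p' hp').2.1
    rw [hff] at h1
    omega

/-- The width does not grow when points are deleted. -/
theorem RDec.restrict {X Y : α → ℤ} {S S' : Finset α} {g : ℕ} (hX : Set.InjOn X S)
    (hY : Set.InjOn Y S) (hS : S' ⊆ S) {A : Finset α} (h : RDec X Y S g A) :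
    RDec X Y S' g (A ∩ S') := by
  induction h with
  | empty =>
    rw [Finset.empty_inter]
    exact RDec.empty
  | @single p hp =>
    by_cases h : p ∈ S'
    · rw [Finset.singleton_inter_of_mem h]
      exact RDec.single h
    · rw [Finset.singleton_inter_of_notMem h]
      exact RDec.empty
  | @union A B hA hB h0 h1 h2 h3 h4 ih1 ih2 =>
    have hAB : A ∪ B ⊆ S := Finset.union_subset hA.subset hB.subset
    have h5 := (card_RB_inter_le hX hS hAB).trans h1
    have h6 := (card_LB_inter_le hX hS hAB).trans h2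
    have h7 := (card_RB_inter_le hY hS hAB).trans h3
    have h8 := (card_LB_inter_le hY hS hAB).trans h4
    rw [Finset.union_inter_distrib_right] at h5 h6 h7 h8 ⊢
    exact RDec.union ih1 ih2 (Finset.disjoint_of_subset_left Finset.inter_subset_left
      (Finset.disjoint_of_subset_right Finset.inter_subset_left h0)) h5 h6 h7 h8

end defs

/-! ### transport -/

section comap

variable {α β : Type*} [DecidableEq α] [DecidableEq β]

omit [DecidableEq β] in
theorem next_comap {X : α → ℤ} {X' : β → ℤ} {S : Finset α} {S' : Finset β} {φ : β → α}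
    (hS : S = S'.image φ) (hX : ∀ a b, X' a < X' b ↔ X (φ a) < X (φ b)) {a b : β}
    (h : Next X' S' a b) : Next X S (φ a) (φ b) := by
  have hX' : ∀ a b, X' a ≤ X' b ↔ X (φ a) ≤ X (φ b) := by
    intro a b; rw [← not_lt, ← not_lt, hX]
  obtain ⟨ha, hb, hab, hr⟩ := h
  refine ⟨hS ▸ Finset.mem_image_of_mem _ ha, hS ▸ Finset.mem_image_of_mem _ hb,
    (hX a b).mp hab, ?_⟩
  intro r hr'
  rw [hS, Finset.mem_image] at hr'
  obtain ⟨c, hc, rfl⟩ := hr'
  rw [← hX', ← hX']
  exact hr c hc

theorem card_RB_comap {X : α → ℤ} {X' : β → ℤ} {S A : Finset α} {S' : Finset β} {φ : β → α}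
    (hφ : Function.Injective φ) (hS : S = S'.image φ)
    (hX : ∀ a b, X' a < X' b ↔ X (φ a) < X (φ b)) :
    (RB X' S' (S'.filter fun b => φ b ∈ A)).card ≤ (RB X S A).card := by
  refine Finset.card_le_card_of_injOn φ ?_ hφ.injOn
  intro c hc
  obtain ⟨h1, q, h2, h3⟩ := mem_RB.mp (Finset.mem_coe.mp hc)
  rw [Finset.mem_coe, mem_RB]
  refine ⟨(Finset.mem_filter.mp h1).2, φ q, next_comap hS hX h2, fun hcon => ?_⟩
  exact h3 (Finset.mem_filter.mpr ⟨h2.2.1, hcon⟩)

theorem card_LB_comap {X : α → ℤ} {X' : β → ℤ} {S A : Finset α} {S' : Finset β} {φ : β → α}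
    (hφ : Function.Injective φ) (hS : S = S'.image φ)
    (hX : ∀ a b, X' a < X' b ↔ X (φ a) < X (φ b)) :
    (LB X' S' (S'.filter fun b => φ b ∈ A)).card ≤ (LB X S A).card := by
  refine Finset.card_le_card_of_injOn φ ?_ hφ.injOn
  intro c hc
  obtain ⟨h1, q, h2, h3⟩ := mem_LB.mp (Finset.mem_coe.mp hc)
  rw [Finset.mem_coe, mem_LB]
  refine ⟨(Finset.mem_filter.mp h1).2, φ q, next_comap hS hX h2, fun hcon => ?_⟩
  exact h3 (Finset.mem_filter.mpr ⟨h2.1, hcon⟩)

/-- transport along an embedding of point sets that preserves both orders -/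
theorem RDec.comap {X Y : α → ℤ} {X' Y' : β → ℤ}
    {S : Finset α} {S' : Finset β} {φ : β → α} (hφ : Function.Injective φ)
    (hS : S = S'.image φ) (hX : ∀ a b, X' a < X' b ↔ X (φ a) < X (φ b))
    (hY : ∀ a b, Y' a < Y' b ↔ Y (φ a) < Y (φ b)) {g : ℕ} {A : Finset α}
    (h : RDec X Y S g A) : RDec X' Y' S' g (S'.filter fun b => φ b ∈ A) := by
  induction h with
  | empty =>
    have : (S'.filter fun b => φ b ∈ (∅ : Finset α)) = ∅ := by simp
    rw [this]
    exact RDec.empty
  | @single p hp =>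
    rw [hS, Finset.mem_image] at hp
    obtain ⟨b, hb, rfl⟩ := hp
    have : (S'.filter fun c => φ c ∈ ({φ b} : Finset α)) = {b} := by
      ext c
      simp only [Finset.mem_filter, Finset.mem_singleton]
      constructor
      · rintro ⟨_, h⟩; exact hφ h
      · rintro rfl; exact ⟨hb, rfl⟩
    rw [this]
    exact RDec.single hb
  | @union A B hA hB hAB h1 h2 h3 h4 ihA ihB =>
    have h5 := (card_RB_comap (A := A ∪ B) hφ hS hX).trans h1
    have h6 := (card_LB_comap (A := A ∪ B) hφ hS hX).trans h2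
    have h7 := (card_RB_comap (A := A ∪ B) hφ hS hY).trans h3
    have h8 := (card_LB_comap (A := A ∪ B) hφ hS hY).trans h4
    have : (S'.filter fun b => φ b ∈ A ∪ B) =
        (S'.filter fun b => φ b ∈ A) ∪ (S'.filter fun b => φ b ∈ B) := by
      ext c
      simp only [Finset.mem_filter, Finset.mem_union]
      tauto
    rw [this] at h5 h6 h7 h8 ⊢
    refine RDec.union ihA ihB ?_ h5 h6 h7 h8
    rw [Finset.disjoint_left]
    intro c h1 h2
    rw [Finset.mem_filter] at h1 h2
    exact Finset.disjoint_left.mp hAB h1.2 h2.2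

end comap

/-! ### permutations -/

/-- `σ` has a hierarchical decomposition with at most `g` run ends of each of the four kinds. -/
def RWid (g : ℕ) (σ : Permutation) : Prop :=
  RDec (fun i : Fin σ.1 => (i.val : ℤ)) (fun i => ((σ.2 i).val : ℤ)) Finset.univ g Finset.univ

theorem RWid.mono {g g' : ℕ} (h : g ≤ g') {σ : Permutation} (hσ : RWid g σ) : RWid g' σ :=
  RDec.mono h hσ

theorem Wid.rwid {g : ℕ} {σ : Permutation} (h : Wid g σ) : RWid g σ := Dec.rdec h

theorem RWid.wid {g : ℕ} {σ : Permutation} (h : RWid g σ) : Wid (4 * g) σ := RDec.dec h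

theorem rwid_of_length_le {g : ℕ} {σ : Permutation} (h : σ.1 ≤ g) : RWid g σ :=
  (wid_of_length_le h).rwid

/-- The permutations of width at most `g` form a class. -/
theorem RWid.of_contains {g : ℕ} {τ σ : Permutation} (h : RWid g τ) (hc : Contains τ σ) :
    RWid g σ := by
  obtain ⟨f, hf, hf2⟩ := hc
  have hX : Set.InjOn (fun i : Fin τ.1 => (i.val : ℤ)) (Finset.univ : Finset (Fin τ.1)) := by
    intro i _ j _ hij
    have hij' : (i.val : ℤ) = (j.val : ℤ) := hij
    exact Fin.ext (by exact_mod_cast hij')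
  have hY : Set.InjOn (fun i : Fin τ.1 => ((τ.2 i).val : ℤ))
      (Finset.univ : Finset (Fin τ.1)) := by
    intro i _ j _ hij
    have hij' : ((τ.2 i).val : ℤ) = ((τ.2 j).val : ℤ) := hij
    exact τ.2.injective (Fin.ext (by exact_mod_cast hij'))
  have h1 := RDec.restrict (S' := Finset.univ.image f) hX hY (Finset.subset_univ _) h
  have h2 := RDec.comap (X' := fun i : Fin σ.1 => (i.val : ℤ))
    (Y' := fun i : Fin σ.1 => ((σ.2 i).val : ℤ)) (S' := Finset.univ) hf.injective rfl (by
      intro a b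
      simp only [Nat.cast_lt]
      rw [← Fin.lt_def, ← Fin.lt_def, hf.lt_iff_lt]) (by
      intro a b
      simp only [Nat.cast_lt]
      rw [← Fin.lt_def, ← Fin.lt_def]
      exact hf2 a b) h1
  have h3 : (Finset.univ.filter fun b => f b ∈ Finset.univ ∩ Finset.univ.image f) =
      Finset.univ := by
    ext c
    simp
  rw [h3] at h2
  exact h2

end Pool.Agent.PPM
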