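import Mathlib
import Pool.Agent.PPMDec.RDec
import Pool.Agent.Lib_helper89.PPM.Main

/-!
# The class of the permutations whose patterns of gap size are narrow
-/

set_option autoImplicit false

namespace Pool.Agent.PPM

/-- the permutations all of whose patterns of gap size are narrow -/
def GapClass (gap : ℕ → Prop) : Set Permutation :=
  {s | ∀ s', Contains s s' → gap s'.1 → RWid 17 s'}

variable {gap gap' : ℕ → Prop}

theorem isClass_gapClass : IsClass (GapClass gap) :=
  fun _ hτ _ hπ s' hs' hg => hτ s' (hπ.trans hs') hg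

theorem gapClass_of_rwid {s : Permutation} (h : RWid 17 s) : s ∈ GapClass gap :=
  fun _ hs' _ => h.of_contains hs'

theorem mem_gapClass_of_gap {s : Permutation} (h : gap s.1) : s ∈ GapClass gap ↔ RWid 17 s :=
  ⟨fun hs => hs s (Contains.refl s) h, gapClass_of_rwid⟩

/-- membership depends only on the gap sizes that are at most the size of the permutation -/
theorem mem_gapClass_congr {s : Permutation} (h : ∀ m ≤ s.1, gap m ↔ gap' m) :
    s ∈ GapClass gap ↔ s ∈ GapClass gap' := by
  constructor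
  · intro hs s' hs' hg
    exact hs s' hs' ((h _ hs'.length_le).mpr hg)
  · intro hs s' hs' hg
    exact hs s' hs' ((h _ hs'.length_le).mp hg)

/-- the size of the staircase permutation -/
def stSize (K R : ℕ) : ℕ := (K + 2) * (2 * ((K + 2) * (2 * (R + 1)) ^ (K + 2)) + 1)

theorem lt_stSize (K R : ℕ) : R < stSize K R := by
  have h1 : 2 * (R + 1) ≤ (2 * (R + 1)) ^ (K + 2) :=
    Nat.le_self_pow (by omega) _
  have h2 : (2 * (R + 1)) ^ (K + 2) ≤ (K + 2) * (2 * (R + 1)) ^ (K + 2) :=
    Nat.le_mul_of_pos_left _ (by omega)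
  have h3 : 2 * ((K + 2) * (2 * (R + 1)) ^ (K + 2)) + 1 ≤ stSize K R :=
    Nat.le_mul_of_pos_left _ (by omega)
  omega

/-- the staircase permutations -/
theorem exists_stair_size (K R : ℕ) : ∃ π : Permutation, π.1 = stSize K R ∧
    ¬ TreewidthLE (permGraph π) K ∧ ∀ σ, Contains π σ → σ.1 ≤ R → RWid 17 σ := by
  obtain ⟨π, e, hX, hY, htw⟩ := exists_staircase_aux (K + 2) (R + 1)
    (2 * ((K + 2) * (2 * (R + 1)) ^ (K + 2)) + 1) (by omega) (by omega) rfl
  refine ⟨π, ?_, htw K rfl, fun σ hσ hlen =>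
    (wid_of_contains (by omega) e hX hY hσ (by omega)).rwid⟩
  have h := Fintype.card_congr e
  rw [Fintype.card_fin, Fintype.card_coe] at h
  rw [h, arcs, Finset.card_product, Finset.card_range, Finset.card_range, stSize]

theorem TreewidthLE.mono {V : Type} {G : SimpleGraph V} {k k' : ℕ} (h : k ≤ k')
    (hG : TreewidthLE G k) : TreewidthLE G k' := by
  obtain ⟨m, T, B, h1, h2, h3, h4, h5⟩ := hG
  exact ⟨m, T, B, h1, h2, h3, h4, fun t => (h5 t).trans (by omega)⟩

/-- If there are arbitrarily wide windows without gap sizes, the treewidth is unbounded. -/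
theorem unbounded_gapClass
    (h : ∀ k : ℕ, ∃ K ≥ k, ∃ R, ∀ m, R < m → m ≤ stSize K R → ¬ gap m) :
    UnboundedTreewidth (GapClass gap) := by
  intro k
  obtain ⟨K, hK, R, hgap⟩ := h k
  obtain ⟨π, hlen, htw, hsmall⟩ := exists_stair_size K R
  refine ⟨π, ?_, fun hcon => htw (hcon.mono hK)⟩
  intro s' hs' hg
  rcases le_or_gt s'.1 R with h1 | h1
  · exact hsmall s' hs' h1
  · exact absurd hg (hgap _ h1 (hs'.length_le.trans hlen.le))

end Pool.Agent.PPM
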