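import Mathlib
import Pool.Agent.PPMDec.GapClass
import Pool.Agent.PPMDec.Tools

/-!
# The construction of the gap sizes in stages

The state `(K, n, G)` after the sizes `≤ m` have been treated: `K` is the number of the current
stage, which started after size `n`, and `G` lists the gap sizes `≤ m`. As long as the search of
stage `K` goes on, every size is a gap size. When it succeeds at size `b` the sizes in
`(b, stSize K b]` are no gap sizes, and stage `K + 1` starts.
-/

set_option autoImplicit false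

namespace Pool.Agent.PPM

/-- one size is treated -/
def stepS (Bad : ℕ → ℕ → ℕ → List ℕ → Prop) [∀ K n b G, Decidable (Bad K n b G)]
    (m : ℕ) (s : ℕ × ℕ × List ℕ) : ℕ × ℕ × List ℕ :=
  if m ≤ s.2.1 then s
  else if Bad s.1 s.2.1 m s.2.2 then (s.1 + 1, stSize s.1 m, m :: s.2.2)
  else (s.1, s.2.1, m :: s.2.2)

/-- the state after the sizes `≤ m` have been treated -/
def stAt (Bad : ℕ → ℕ → ℕ → List ℕ → Prop) [∀ K n b G, Decidable (Bad K n b G)] :
    ℕ → ℕ × ℕ × List ℕ
  | 0 => (0, 0, [])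
  | m + 1 => stepS Bad (m + 1) (stAt Bad m)

/-- the gap sizes `≤ m` -/
def gaps (Bad : ℕ → ℕ → ℕ → List ℕ → Prop) [∀ K n b G, Decidable (Bad K n b G)]
    (m : ℕ) : List ℕ := (stAt Bad m).2.2

/-- the gap sizes -/
def gapOf (Bad : ℕ → ℕ → ℕ → List ℕ → Prop) [∀ K n b G, Decidable (Bad K n b G)]
    (m : ℕ) : Prop := m ∈ gaps Bad m

/-- stage `K` starts after size `n` -/
def Stage (Bad : ℕ → ℕ → ℕ → List ℕ → Prop) [∀ K n b G, Decidable (Bad K n b G)]
    (K n : ℕ) : Prop := ∃ G, stAt Bad n = (K, n, G)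

variable {Bad : ℕ → ℕ → ℕ → List ℕ → Prop} [inst : ∀ K n b G, Decidable (Bad K n b G)]

theorem gaps_succ_cases (m : ℕ) :
    gaps Bad (m + 1) = gaps Bad m ∨ gaps Bad (m + 1) = (m + 1) :: gaps Bad m := by
  unfold gaps
  rw [stAt, stepS]
  split_ifs with h1 h2
  · exact Or.inl rfl
  · exact Or.inr rfl
  · exact Or.inr rfl

theorem le_of_mem_gaps {m M : ℕ} (h : m ∈ gaps Bad M) : m ≤ M := by
  induction M with
  | zero => simp [gaps, stAt] at h
  | succ M ih =>
    rcases gaps_succ_cases (Bad := Bad) M with h1 | h1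
    · rw [h1] at h
      have := ih h
      omega
    · rw [h1, List.mem_cons] at h
      rcases h with rfl | h
      · exact le_rfl
      · have := ih h
        omega

/-- the list of the gap sizes is correct -/
theorem mem_gaps_iff {m M : ℕ} (hm : m ≤ M) : m ∈ gaps Bad M ↔ gapOf Bad m := by
  induction M, hm using Nat.le_induction with
  | base => exact Iff.rfl
  | succ M hm ih =>
    rw [← ih]
    rcases gaps_succ_cases (Bad := Bad) M with h1 | h1
    · rw [h1]
    · rw [h1, List.mem_cons]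
      constructor
      · rintro (rfl | h)
        · omega
        · exact h
      · exact Or.inr

theorem stage_zero : Stage Bad 0 0 := ⟨[], rfl⟩

/-- the search goes on -/
theorem stAt_of_search {K n : ℕ} (h : Stage Bad K n) (b : ℕ) (hb : n ≤ b)
    (hbad : ∀ b', n < b' → b' ≤ b → ¬ Bad K n b' (gaps Bad (b' - 1))) :
    ∃ G, stAt Bad b = (K, n, G) := by
  induction b, hb using Nat.le_induction with
  | base => exact h
  | succ b hb ih =>
    obtain ⟨G, hG⟩ := ih fun b' h1 h2 => hbad b' h1 (by omega)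
    have h1 := hbad (b + 1) (by omega) le_rfl
    rw [Nat.add_sub_cancel, gaps, hG] at h1
    refine ⟨(b + 1) :: G, ?_⟩
    rw [stAt, hG, stepS, if_neg (by simp only; omega), if_neg h1]

theorem gapOf_of_search {K n : ℕ} (h : Stage Bad K n) {b : ℕ} (hb : n < b)
    (hbad : ∀ b', n < b' → b' < b → ¬ Bad K n b' (gaps Bad (b' - 1))) : gapOf Bad b := by
  obtain ⟨b, rfl⟩ : ∃ c, b = c + 1 := ⟨b - 1, by omega⟩
  obtain ⟨G, hG⟩ := stAt_of_search h b (by omega) fun b' h1 h2 => hbad b' h1 (by omega)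
  unfold gapOf gaps
  rw [stAt, hG, stepS, if_neg (by simp only; omega)]
  split_ifs
  · exact List.mem_cons_self
  · exact List.mem_cons_self

/-- the search succeeds -/
theorem stAt_of_bad {K n : ℕ} (h : Stage Bad K n) {b : ℕ} (hb : n < b)
    (hbad : ∀ b', n < b' → b' < b → ¬ Bad K n b' (gaps Bad (b' - 1)))
    (hB : Bad K n b (gaps Bad (b - 1))) :
    ∃ G, stAt Bad b = (K + 1, stSize K b, G) := by
  obtain ⟨b, rfl⟩ : ∃ c, b = c + 1 := ⟨b - 1, by omega⟩
  obtain ⟨G, hG⟩ := stAt_of_search h b (by omega) fun b' h1 h2 => hbad b' h1 (by omega)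
  rw [Nat.add_sub_cancel, gaps, hG] at hB
  refine ⟨(b + 1) :: G, ?_⟩
  rw [stAt, hG, stepS, if_neg (by simp only; omega), if_pos hB]

theorem stAt_of_window {m : ℕ} {K n : ℕ} {G : List ℕ} (h : stAt Bad m = (K, n, G)) {M : ℕ}
    (hM : m ≤ M) (hMn : M ≤ n) : stAt Bad M = (K, n, G) := by
  induction M, hM using Nat.le_induction with
  | base => exact h
  | succ M hM ih =>
    rw [stAt, ih (by omega), stepS, if_pos hMn]

/-- If no search goes on for ever, every stage is reached. -/
theorem stages (hterm : ∀ K n, Stage Bad K n → (∀ m, n < m → gapOf Bad m) →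
    (∀ b, n < b → ¬ Bad K n b (gaps Bad (b - 1))) → False) (K : ℕ) :
    ∃ n b, n < b ∧ Stage Bad K n ∧ Bad K n b (gaps Bad (b - 1)) ∧
      (∀ m, n < m → m ≤ b → gapOf Bad m) ∧
      (∀ m, b < m → m ≤ stSize K b → ¬ gapOf Bad m) ∧ Stage Bad (K + 1) (stSize K b) := by
  classical
  have step : ∀ K n, Stage Bad K n → ∃ b, n < b ∧ Bad K n b (gaps Bad (b - 1)) ∧
      (∀ m, n < m → m ≤ b → gapOf Bad m) ∧
      (∀ m, b < m → m ≤ stSize K b → ¬ gapOf Bad m) ∧ Stage Bad (K + 1) (stSize K b) := by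
    intro K n h
    have hex : ∃ b, n < b ∧ Bad K n b (gaps Bad (b - 1)) := by
      by_contra hcon
      push Not at hcon
      exact hterm K n h (fun m hm => gapOf_of_search h hm fun b' h1 _ => hcon b' h1) hcon
    obtain ⟨hb1, hb2⟩ := Nat.find_spec hex
    have hmin := fun b' (h1 : n < b') (h2 : b' < Nat.find hex) =>
      fun h3 => Nat.find_min hex h2 ⟨h1, h3⟩
    generalize Nat.find hex = b at hb1 hb2 hmin
    obtain ⟨G, hG⟩ := stAt_of_bad h hb1 hmin hb2
    refine ⟨b, hb1, hb2, fun m h1 h2 => gapOf_of_search h h1 fun b' h3 h4 =>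
      hmin b' h3 (by omega), ?_, G, stAt_of_window hG (lt_stSize K b).le le_rfl⟩
    intro m h1 h2 h3
    have h4 := stAt_of_window hG h1.le h2
    unfold gapOf gaps at h3
    rw [h4] at h3
    have h5 : m ∈ gaps Bad b := by
      unfold gaps
      rw [hG]
      exact h3
    have := le_of_mem_gaps h5
    omega
  have hst : ∀ K, ∃ n, Stage Bad K n := by
    intro K
    induction K with
    | zero => exact ⟨0, stage_zero⟩
    | succ K ih =>
      obtain ⟨n, hn⟩ := ih
      obtain ⟨b, _, _, _, _, h⟩ := step K n hn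
      exact ⟨_, h⟩
  obtain ⟨n, hn⟩ := hst K
  obtain ⟨b, h1, h2, h3, h4, h5⟩ := step K n hn
  exact ⟨n, b, h1, hn, h2, h3, h4, h5⟩

/-- If no search goes on for ever, the treewidth is unbounded. -/
theorem unbounded_of_stages (hterm : ∀ K n, Stage Bad K n → (∀ m, n < m → gapOf Bad m) →
    (∀ b, n < b → ¬ Bad K n b (gaps Bad (b - 1))) → False) :
    UnboundedTreewidth (GapClass (gapOf Bad)) := by
  refine unbounded_gapClass fun k => ?_
  obtain ⟨n, b, _, _, _, _, h, _⟩ := stages hterm k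
  exact ⟨k, le_rfl, b, h⟩

/-! ### the construction is primitive recursive -/

open Pool.Agent.PPMDec in
theorem prim_stSize {δ : Type} [Primcodable δ] {f g : δ → ℕ} (hf : Primrec f) (hg : Primrec g) :
    Primrec fun d => stSize (f d) (g d) := by
  unfold stSize
  have h2 : Primrec fun d => f d + 2 := Primrec.nat_add.comp hf (Primrec.const 2)
  refine Primrec.nat_mul.comp h2 (Primrec.nat_add.comp (Primrec.nat_mul.comp (Primrec.const 2)
    (Primrec.nat_mul.comp h2 (prim_pow (Primrec.nat_mul.comp (Primrec.const 2)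
      (Primrec.nat_add.comp hg (Primrec.const 1))) h2))) (Primrec.const 1))

theorem prim_stAt (hBad : PrimrecPred fun p : ℕ × ℕ × ℕ × List ℕ =>
    Bad p.1 p.2.1 p.2.2.1 p.2.2.2) : Primrec (stAt Bad) := by
  have h := Primrec.nat_rec₁ (f := fun m s => stepS Bad (m + 1) s) (0, 0, ([] : List ℕ)) (by
    unfold stepS
    have hm : Primrec fun p : ℕ × ℕ × ℕ × List ℕ => p.1 + 1 := Primrec.succ.comp Primrec.fst
    have hs : Primrec fun p : ℕ × ℕ × ℕ × List ℕ => p.2 := Primrec.snd
    have hK : Primrec fun p : ℕ × ℕ × ℕ × List ℕ => p.2.1 := Primrec.fst.comp hs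
    have hn : Primrec fun p : ℕ × ℕ × ℕ × List ℕ => p.2.2.1 :=
      Primrec.fst.comp (Primrec.snd.comp hs)
    have hG : Primrec fun p : ℕ × ℕ × ℕ × List ℕ => p.2.2.2 :=
      Primrec.snd.comp (Primrec.snd.comp hs)
    refine Primrec.ite (Primrec.nat_le.comp hm hn) hs (Primrec.ite ?_ ?_ ?_)
    · exact hBad.comp (hK.pair (hn.pair (hm.pair hG)))
    · exact (Primrec.succ.comp hK).pair ((prim_stSize hK hm).pair
        (Primrec.list_cons.comp hm hG))
    · exact hK.pair (hn.pair (Primrec.list_cons.comp hm hG)))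
  refine h.of_eq fun m => ?_
  induction m with
  | zero => rfl
  | succ m ih =>
    rw [stAt, ← ih]

theorem prim_gaps (hBad : PrimrecPred fun p : ℕ × ℕ × ℕ × List ℕ =>
    Bad p.1 p.2.1 p.2.2.1 p.2.2.2) : Primrec (gaps Bad) :=
  Primrec.snd.comp (Primrec.snd.comp (prim_stAt hBad))

end Pool.Agent.PPM
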