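import Mathlib
import Pool.Agent.PPMDec.Stages
import Pool.Agent.PPMDec.Pat

/-!
# Membership in the gap class is primitive recursive
-/

set_option autoImplicit false

namespace Pool.Agent.PPMDec

open Pool.Agent.PPM

/-- membership in the gap class, for lists; `G` is the list of the gap sizes and `W` a test for
width at most 17 -/
def inCL (W : List ℕ → Prop) (G l : List ℕ) : Prop :=
  ∀ s ∈ tup (List.range l.length) l.length, IsPerm s → ContL l s → s.length ∈ G → W s

variable {W : List ℕ → Prop}

theorem inCL_iff (hW : ∀ π, W (vals π) ↔ RWid 17 π) (G : List ℕ) (π : Permutation) :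
    inCL W G (vals π) ↔ π ∈ GapClass fun m => m ∈ G := by
  constructor
  · intro h s' hs' hg
    rw [← hW]
    refine h (vals s') ?_ (isPerm_vals s') ((contL_iff π s').mpr hs') (by rwa [length_vals])
    rw [mem_tup, length_vals, length_vals]
    refine ⟨hs'.length_le, fun a ha => ?_⟩
    rw [List.mem_range]
    have h1 := (isPerm_vals s').lt ha
    rw [length_vals] at h1
    exact h1.trans_le hs'.length_le
  · intro h s _ hs hc hg
    obtain ⟨s', rfl⟩ := exists_vals_eq hs
    rw [hW]
    rw [length_vals] at hg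
    exact h s' ((contL_iff π s').mp hc) hg

/-- membership in the class constructed in stages; only the gap sizes up to the size of the
permutation are used -/
theorem inCL_gaps_iff (hW : ∀ π, W (vals π) ↔ RWid 17 π)
    {Bad : ℕ → ℕ → ℕ → List ℕ → Prop} [inst : ∀ K n b G, Decidable (Bad K n b G)]
    {π : Permutation} {M : ℕ} (hM : π.1 ≤ M) :
    inCL W (gaps Bad M) (vals π) ↔ π ∈ GapClass (gapOf Bad) := by
  rw [inCL_iff hW]
  exact mem_gapClass_congr fun m hm => mem_gaps_iff (hm.trans hM)

section prim

variable {δ : Type} [Primcodable δ]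

theorem prim_inCL (hW : PrimrecPred W) {G l : δ → List ℕ} (hG : Primrec G) (hl : Primrec l) :
    PrimrecPred fun d => inCL W (G d) (l d) := by
  refine prim_forall (R := fun d s => IsPerm s → ContL (l d) s → s.length ∈ G d → W s)
    (prim_tup (Primrec.list_range.comp (Primrec.list_length.comp hl))
      (Primrec.list_length.comp hl)) ?_
  refine prim_imp (prim_isPerm Primrec.snd) (prim_imp
    (prim_contL (hl.comp Primrec.fst) Primrec.snd) (prim_imp ?_ (hW.comp Primrec.snd)))
  exact prim_mem (Primrec.list_length.comp Primrec.snd) (hG.comp Primrec.fst)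

end prim

/-- The class is primitive recursive. -/
theorem prim_gapClass (hW : ∀ π, W (vals π) ↔ RWid 17 π) (hWp : PrimrecPred W)
    {Bad : ℕ → ℕ → ℕ → List ℕ → Prop} [inst : ∀ K n b G, Decidable (Bad K n b G)]
    (hBad : PrimrecPred fun p : ℕ × ℕ × ℕ × List ℕ => Bad p.1 p.2.1 p.2.2.1 p.2.2.2) :
    PrimrecPred fun l : List ℕ => ∃ π ∈ GapClass (gapOf Bad), vals π = l := by
  refine ((prim_isPerm Primrec.id).and (prim_inCL (W := W) hWp
    ((prim_gaps hBad).comp Primrec.list_length) Primrec.id)).of_eq fun l => ?_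
  constructor
  · rintro ⟨h1, h2⟩
    obtain ⟨π, rfl⟩ := exists_vals_eq h1
    exact ⟨π, (inCL_gaps_iff hW (by simp)).mp h2, rfl⟩
  · rintro ⟨π, h1, rfl⟩
    exact ⟨isPerm_vals π, (inCL_gaps_iff hW (by simp)).mpr h1⟩

end Pool.Agent.PPMDec
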