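import Mathlib
import Pool.Agent.PPMDec.InC

/-!
# The search of a stage: inputs on which the program of the stage is not a reduction
-/

set_option autoImplicit false
set_option linter.dupNamespace false

namespace Pool.Agent.PPMDec

open Function Pool.Agent.PT Pool.Agent.PPM N487b59b3

/-- the number of steps granted to the program of stage `K` on the input `x` -/
def clock (K : ℕ) (x : List Bool) : ℕ := ((enc x : List Bool).length + 2) ^ K.unpair.2

/-- the configuration of the interpreter after the granted number of steps -/
def conf (K : ℕ) (x : List Bool) : List ℕ × List (List Bool) := run K.unpair.1 (enc x) (clock K x)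

/-- the program of stage `K` halts in time on the input `x` with output `z` -/
def Outp (K : ℕ) (x z : List Bool) : Prop :=
  (conf K x).1 = [] ∧ (∀ s ∈ (conf K x).2.tail, s = []) ∧ (conf K x).2.getD 0 [] = z

/-- membership in the class at stage `K`, started after size `n`, for the gap sizes `G` -/
def InB (W : List ℕ → Prop) (n : ℕ) (G p : List ℕ) : Prop :=
  (n < p.length → W p) ∧ (p.length ≤ n → inCL W G p)

/-- The input `x` is no counterexample: the program halts in time, its output is a pair
(pattern, text), and if the pattern has size at most `b` then the answer is correct. -/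
def Good (L : List Bool → Bool) (W : List ℕ → Prop) (K n b : ℕ) (G : List ℕ)
    (x : List Bool) : Prop :=
  Outp K x ((conf K x).2.getD 0 []) ∧
    ∃ p ∈ tup (List.range ((conf K x).2.getD 0 []).length) ((conf K x).2.getD 0 []).length,
      ∃ q ∈ tup (List.range ((conf K x).2.getD 0 []).length) ((conf K x).2.getD 0 []).length,
        IsPerm p ∧ IsPerm q ∧ (conf K x).2.getD 0 [] = delimit (encNats p) ++ encNats q ∧
          (p.length ≤ b → (L x = true ↔ ContL q p ∧ InB W n G p))

/-- the search of stage `K` succeeds at size `b` -/
def BadS (L : List Bool → Bool) (W : List ℕ → Prop) (K n b : ℕ) (G : List ℕ) : Prop :=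
  ∃ x ∈ tup [false, true] b, ¬ Good L W K n b G x

theorem sto_of_outp {K : ℕ} {x z : List Bool} (h : Outp K x z) :
    sto (conf K x).2 = single 0 z := by
  obtain ⟨_, h2, h3⟩ := h
  funext v
  unfold sto single
  rcases v with _ | v
  · simpa using h3
  · rw [if_neg (by omega)]
    rcases hc : (conf K x).2 with _ | ⟨a, T⟩
    · simp
    · rw [hc] at h2
      simp only [List.tail_cons] at h2
      rw [List.getD_cons_succ]
      by_cases hv : v < T.length
      · rw [List.getD_eq_getElem?_getD, List.getElem?_eq_getElem hv]
        exact h2 _ (List.getElem_mem hv)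
      · rw [List.getD_eq_default _ _ (by omega)]

/-- soundness of the interpreter -/
theorem runs_of_outp {K : ℕ} {x z : List Bool} (h : Outp K x z) :
    Runs (cmdOf K.unpair.1) (single 0 (enc x)) (single 0 z) (clock K x) :=
  runs_of_run h.1 (sto_of_outp h)

/-- completeness of the interpreter -/
theorem outp_of_runs {c : Cmd} {k : ℕ} {x z : List Bool} {t : ℕ}
    (h : Runs c (single 0 (enc x)) (single 0 z) t)
    (ht : 2 * t ≤ ((enc x : List Bool).length + 2) ^ k) : Outp (Nat.pair c.code k) x z := by
  have h1 := run_of_runs h ht
  have e : conf (Nat.pair c.code k) x = run c.code (enc x) (((enc x : List Bool).length + 2) ^ k) :=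
    by simp [conf, clock]
  rw [← e] at h1
  obtain ⟨h2, h3⟩ := h1
  refine ⟨h2, ?_, ?_⟩
  · intro s hs
    rcases hc : (conf (Nat.pair c.code k) x).2 with _ | ⟨a, T⟩
    · rw [hc] at hs
      simp at hs
    · rw [hc] at hs h3
      simp only [List.tail_cons] at hs
      obtain ⟨i, hi, rfl⟩ := List.getElem_of_mem hs
      have h4 := congrFun h3 (i + 1)
      unfold sto single at h4
      rw [if_neg (by omega), List.getD_cons_succ, List.getD_eq_getElem?_getD,
        List.getElem?_eq_getElem hi] at h4
      exact h4
  · have h4 := congrFun h3 0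
    unfold sto single at h4
    simpa using h4

theorem exists_pow_bound (p : Polynomial ℕ) : ∃ k : ℕ, ∀ n : ℕ, p.eval n ≤ (n + 2) ^ k := by
  induction p using Polynomial.induction_on' with
  | add p q hp hq =>
    obtain ⟨k, hk⟩ := hp
    obtain ⟨l, hl⟩ := hq
    refine ⟨max k l + 1, fun n => ?_⟩
    have h1 := hk n
    have h2 := hl n
    have h3 : (n + 2) ^ k ≤ (n + 2) ^ max k l := Nat.pow_le_pow_right (by omega) (le_max_left _ _)
    have h4 : (n + 2) ^ l ≤ (n + 2) ^ max k l := Nat.pow_le_pow_right (by omega) (le_max_right _ _)
    rw [Polynomial.eval_add, pow_succ]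
    nlinarith
  | monomial i c =>
    refine ⟨c + i, fun n => ?_⟩
    rw [Polynomial.eval_monomial, pow_add]
    refine Nat.mul_le_mul ?_ (Nat.pow_le_pow_left (by omega) _)
    calc c ≤ 2 ^ c := Nat.lt_two_pow_self.le
      _ ≤ (n + 2) ^ c := Nat.pow_le_pow_left (by omega) _

/-- STATEMENT for helper15: if the program of stage `K` reduces `L` to the language of a class
that consists, above the size `n`, of the permutations of run width at most 17, then `L` is
in P. -/
def M_NB : Prop :=
  ∀ (L : List Bool → Bool) (K n : ℕ) (C : Set Permutation), IsClass C →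
    (∀ π : Permutation, n < π.1 → (π ∈ C ↔ RWid 17 π)) →
    (∀ x : List Bool, ∃ π τ : Permutation, Outp K x (enc (π, τ)) ∧
      (L x = true ↔ Contains τ π ∧ π ∈ C)) → L ∈ N68a2faeb.P

end Pool.Agent.PPMDec
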