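import Mathlib
import Pool.Agent.PPMDec.Bad

/-!
# The search predicate is primitive recursive
-/

set_option autoImplicit false
set_option linter.dupNamespace false

namespace Pool.Agent.PPMDec

open Function Pool.Agent.PT Pool.Agent.PPM N487b59b3

section

variable {δ : Type} [Primcodable δ]

theorem prim_conf {K : δ → ℕ} {x : δ → List Bool} (hK : Primrec K) (hx : Primrec x) :
    Primrec fun d => conf (K d) (x d) := by
  have he : Primrec fun d => (enc (x d) : List Bool) := prim_encBits.comp hx
  exact prim_run (prim_unpair1 hK) he (prim_pow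
    (Primrec.nat_add.comp (Primrec.list_length.comp he) (Primrec.const 2)) (prim_unpair2 hK))

theorem prim_outReg {K : δ → ℕ} {x : δ → List Bool} (hK : Primrec K) (hx : Primrec x) :
    Primrec fun d => (conf (K d) (x d)).2.getD 0 [] :=
  (Primrec.list_getD []).comp (Primrec.snd.comp (prim_conf hK hx)) (Primrec.const 0)

theorem prim_outp {K : δ → ℕ} {x z : δ → List Bool} (hK : Primrec K) (hx : Primrec x)
    (hz : Primrec z) : PrimrecPred fun d => Outp (K d) (x d) (z d) := by
  have h1 : PrimrecPred fun d => (conf (K d) (x d)).1 = [] :=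
    Primrec.eq.comp (Primrec.fst.comp (prim_conf hK hx)) (Primrec.const [])
  have h2 : PrimrecPred fun d => ∀ s ∈ (conf (K d) (x d)).2.tail, s = [] :=
    prim_forall (R := fun _ s => s = []) (Primrec.list_tail.comp
      (Primrec.snd.comp (prim_conf hK hx))) (Primrec.eq.comp Primrec.snd (Primrec.const []))
  exact h1.and (h2.and (Primrec.eq.comp (prim_outReg hK hx) hz))

theorem prim_inB {W : List ℕ → Prop} (hW : PrimrecPred W) {n : δ → ℕ} {G p : δ → List ℕ}
    (hn : Primrec n) (hG : Primrec G) (hp : Primrec p) :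
    PrimrecPred fun d => InB W (n d) (G d) (p d) :=
  (prim_imp (Primrec.nat_lt.comp hn (Primrec.list_length.comp hp)) (hW.comp hp)).and
    (prim_imp (Primrec.nat_le.comp (Primrec.list_length.comp hp) hn) (prim_inCL hW hG hp))

theorem prim_good {L : List Bool → Bool} {W : List ℕ → Prop} (hL : Primrec L)
    (hW : PrimrecPred W) {K n b : δ → ℕ} {G : δ → List ℕ} {x : δ → List Bool} (hK : Primrec K)
    (hn : Primrec n) (hb : Primrec b) (hG : Primrec G) (hx : Primrec x) :
    PrimrecPred fun d => Good L W (K d) (n d) (b d) (G d) (x d) := by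
  have hz := prim_outReg hK hx
  have hc : Primrec fun d => tup (List.range ((conf (K d) (x d)).2.getD 0 []).length)
      ((conf (K d) (x d)).2.getD 0 []).length :=
    prim_tup (Primrec.list_range.comp (Primrec.list_length.comp hz)) (Primrec.list_length.comp hz)
  refine (prim_outp hK hx hz).and ?_
  refine prim_exists (R := fun d p =>
    ∃ q ∈ tup (List.range ((conf (K d) (x d)).2.getD 0 []).length)
      ((conf (K d) (x d)).2.getD 0 []).length,
      IsPerm p ∧ IsPerm q ∧ (conf (K d) (x d)).2.getD 0 [] = delimit (encNats p) ++ encNats q ∧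
        (p.length ≤ b d → (L (x d) = true ↔ ContL q p ∧ InB W (n d) (G d) p))) hc ?_
  refine prim_exists (R := fun (e : δ × List ℕ) q =>
      IsPerm e.2 ∧ IsPerm q ∧
        (conf (K e.1) (x e.1)).2.getD 0 [] = delimit (encNats e.2) ++ encNats q ∧
        (e.2.length ≤ b e.1 →
          (L (x e.1) = true ↔ ContL q e.2 ∧ InB W (n e.1) (G e.1) e.2)))
      (hc.comp Primrec.fst) ?_
  have h0 : Primrec fun e : (δ × List ℕ) × List ℕ => e.1.1 := Primrec.fst.comp Primrec.fst
  have h1 : Primrec fun e : (δ × List ℕ) × List ℕ => e.1.2 := Primrec.snd.comp Primrec.fst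
  have h2 : Primrec fun e : (δ × List ℕ) × List ℕ => e.2 := Primrec.snd
  refine (prim_isPerm h1).and ((prim_isPerm h2).and (PrimrecPred.and ?_ (prim_imp ?_ ?_)))
  · exact Primrec.eq.comp (hz.comp h0) (Primrec.list_append.comp
      (prim_delimit.comp (prim_encNats.comp h1)) (prim_encNats.comp h2))
  · exact Primrec.nat_le.comp (Primrec.list_length.comp h1) (hb.comp h0)
  · exact prim_iff (Primrec.eq.comp (hL.comp (hx.comp h0)) (Primrec.const true))
      ((prim_contL h2 h1).and (prim_inB hW (hn.comp h0) (hG.comp h0) h1))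

end

theorem prim_badS {L : List Bool → Bool} {W : List ℕ → Prop} (hL : Primrec L)
    (hW : PrimrecPred W) : PrimrecPred fun p : ℕ × ℕ × ℕ × List ℕ =>
      BadS L W p.1 p.2.1 p.2.2.1 p.2.2.2 := by
  have hK : Primrec fun p : ℕ × ℕ × ℕ × List ℕ => p.1 := Primrec.fst
  have hn : Primrec fun p : ℕ × ℕ × ℕ × List ℕ => p.2.1 := Primrec.fst.comp Primrec.snd
  have hb : Primrec fun p : ℕ × ℕ × ℕ × List ℕ => p.2.2.1 :=
    Primrec.fst.comp (Primrec.snd.comp Primrec.snd)
  have hG : Primrec fun p : ℕ × ℕ × ℕ × List ℕ => p.2.2.2 :=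
    Primrec.snd.comp (Primrec.snd.comp Primrec.snd)
  refine prim_exists (R := fun (p : ℕ × ℕ × ℕ × List ℕ) x =>
    ¬ Good L W p.1 p.2.1 p.2.2.1 p.2.2.2 x) (prim_tup (Primrec.const [false, true]) hb) ?_
  exact (prim_good hL hW (hK.comp Primrec.fst) (hn.comp Primrec.fst) (hb.comp Primrec.fst)
    (hG.comp Primrec.fst) Primrec.snd).not

end Pool.Agent.PPMDec
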