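import Mathlib
import Pool.Agent.Lib_helper89.PPM.Alg

/-!
# Deciding in polynomial time whether a permutation is narrow: the algorithm
-/

set_option autoImplicit false
set_option linter.dupNamespace false

namespace Pool.Agent.PPMDec

open Function Pool.Agent.PT Pool.Agent.PPM N487b59b3

/-- all `k`-tuples of elements of a list -/
def tupK {α : Type} (L : List α) : ℕ → List (List α)
  | 0 => [[]]
  | k + 1 => (tupK L k).flatMap fun t => L.map fun p => p :: t

theorem mem_tupK {α : Type} {L : List α} {k : ℕ} {w : List α} :
    w ∈ tupK L k ↔ w.length = k ∧ ∀ u ∈ w, u ∈ L := by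
  induction k generalizing w with
  | zero =>
    simp only [tupK, List.mem_singleton]
    constructor
    · rintro rfl
      simp
    · rintro ⟨h, _⟩
      exact List.length_eq_zero_iff.mp h
  | succ k ih =>
    simp only [tupK, List.mem_flatMap, List.mem_map]
    constructor
    · rintro ⟨t, ht, a, ha, rfl⟩
      rw [ih] at ht
      refine ⟨by simpa using ht.1, ?_⟩
      intro b hb
      rcases List.mem_cons.mp hb with rfl | hb
      · exact ha
      · exact ht.2 b hb
    · rintro ⟨h1, h2⟩
      cases w with
      | nil => simp at h1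
      | cons a t =>
        exact ⟨t, ih.mpr ⟨by simpa using h1, fun b hb => h2 b (List.mem_cons_of_mem _ hb)⟩,
          a, h2 a List.mem_cons_self, rfl⟩

theorem pt_tupK {δ α : Type} [N487b59b3 δ] [N487b59b3 α] (k : ℕ) {f : δ → List α} (hf : PT f) :
    PT (fun d => tupK (f d) k) := by
  induction k with
  | zero => exact PT.const _
  | succ k ih =>
    have h1 : PT (fun p : List α × List α => p.1.map fun q => q :: p.2) :=
      PT.map (g := fun x : List α × α => x.2 :: x.1) (e := fun p : List α × List α => p.2)
        (l := fun p => p.1) (PT.cons PT.snd PT.fst) PT.snd PT.fst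
    exact PT.flatMap h1 hf ih

/-- the pairs of numbers `≤ n` -/
def pairsU (n : ℕ) : List (U × U) :=
  (rangeU (n + 1)).flatMap fun a => (rangeU (n + 1)).map fun b => (a, b)

/-- the union of the intervals `[a, b)`, as a list of bits of length `n` -/
def maskOf (n : ℕ) (I : List (U × U)) : List Bool :=
  (rangeU n).map fun x => I.any fun p => decide (p.1.val ≤ x.val) && decide (x.val < p.2.val)

/-- candidates -/
def cands (g n : ℕ) : List (List Bool) := (tupK (pairsU n) (g + 1)).map fun I => maskOf n I

/-- the list of bits in the order of values -/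
def vmask (l : List U) (m : List Bool) : List Bool :=
  (rangeU l.length).map fun v => (l.zip m).any fun p => decide (p.1 = v) && p.2

/-- number of ones -/
def ones (m : List Bool) : ℕ := (m.filter fun b => b).length

/-- number of places where a one is followed by a zero -/
def ups (m : List Bool) : ℕ := ((m.zip m.tail).filter fun p => p.1 && !p.2).length

/-- number of places where a zero is followed by a one -/
def dns (m : List Bool) : ℕ := ((m.zip m.tail).filter fun p => !p.1 && p.2).length

/-- the boundaries are small -/
def thin (g : ℕ) (l : List U) (m : List Bool) : Bool :=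
  (decide (ups m ≤ g) && decide (dns m ≤ g)) &&
    (decide (ups (vmask l m) ≤ g) && decide (dns (vmask l m) ≤ g))

/-- equality of lists of bits of the same length -/
def eqm (a m : List Bool) : Bool := (a.zip m).all fun p => p.1 == p.2

/-- the set `m` is the disjoint union of `a` and `b` -/
def splits (m a b : List Bool) : Bool :=
  (m.zip (a.zip b)).all fun p => (p.1 == (p.2.1 || p.2.2)) && !(p.2.1 && p.2.2)

/-- one round -/
def roundB (g : ℕ) (l : List U) (C H : List (List Bool)) : List (List Bool) :=
  C.filter fun m => (H.any fun a => eqm a m) ||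
    (thin g l m && H.any fun a => H.any fun b => splits m a b)

/-- the initial sets -/
def initB (C : List (List Bool)) : List (List Bool) := C.filter fun m => decide (ones m ≤ 1)

/-- the algorithm -/
def rwidB (g : ℕ) (l : List U) : Bool :=
  ((roundB g l (cands g l.length))^[l.length] (initB (cands g l.length))).any
    fun m => m.all fun b => b

section

variable {δ : Type} [N487b59b3 δ]

theorem pt_pairsU : PT (fun l : List U => pairsU l.length) := by
  have h1 : PT (fun l : List U => rangeU (l.length + 1)) :=
    (PT.rangeList (PT.cons (PT.const (U.mk 0)) PT.id)).congr fun l => by simp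
  have h2 : PT (fun p : List U × U => p.1.map fun b => (p.2, b)) :=
    PT.map (g := fun x : U × U => (x.1, x.2)) (e := fun p : List U × U => p.2)
      (l := fun p => p.1) (PT.fst.pair PT.snd) PT.snd PT.fst
  exact PT.flatMap h2 h1 h1

theorem pt_maskOf : PT (fun p : List U × List (U × U) => maskOf p.1.length p.2) := by
  have h1 : PT (fun q : U × (U × U) =>
      decide (q.2.1.val ≤ q.1.val) && decide (q.1.val < q.2.2.val)) :=
    PT.and (PT.ule PT.snd.comp_fst PT.fst) (PT.ult PT.fst PT.snd.comp_snd)
  have h2 : PT (fun q : List (U × U) × U => q.1.any fun p =>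
      decide (p.1.val ≤ q.2.val) && decide (q.2.val < p.2.val)) :=
    PT.any h1 PT.snd PT.fst
  exact PT.map h2 PT.snd (PT.rangeList PT.fst)

theorem pt_cands (g : ℕ) : PT (fun l : List U => cands g l.length) :=
  PT.map (g := fun p : List U × List (U × U) => maskOf p.1.length p.2) pt_maskOf PT.id
    (pt_tupK (g + 1) pt_pairsU)

theorem pt_vmask : PT (fun p : List U × List Bool => vmask p.1 p.2) := by
  have h1 : PT (fun q : U × (U × Bool) => decide (q.2.1 = q.1) && q.2.2) :=
    PT.and (eq_U.comp (PT.snd.comp_fst.pair PT.fst)) PT.snd.comp_snd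
  have h2 : PT (fun q : List (U × Bool) × U => q.1.any fun p => decide (p.1 = q.2) && p.2) :=
    PT.any h1 PT.snd PT.fst
  exact PT.map h2 (PT.fst.zip PT.snd) (PT.rangeList PT.fst)

theorem pt_ones {f : δ → List Bool} (hf : PT f) : PT (fun d => U.mk (ones (f d))) :=
  PT.length (PT.filter (g := fun p : Bool × Bool => p.2) (e := fun _ => true) PT.snd
    (PT.const true) hf)

theorem pt_ups {f : δ → List Bool} (hf : PT f) : PT (fun d => U.mk (ups (f d))) :=
  PT.length (PT.filter (g := fun p : Bool × (Bool × Bool) => p.2.1 && !p.2.2)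
    (e := fun _ => true) (PT.and PT.snd.comp_fst (PT.not PT.snd.comp_snd)) (PT.const true)
    (hf.zip (PT.tail.comp hf)))

theorem pt_dns {f : δ → List Bool} (hf : PT f) : PT (fun d => U.mk (dns (f d))) :=
  PT.length (PT.filter (g := fun p : Bool × (Bool × Bool) => !p.2.1 && p.2.2)
    (e := fun _ => true) (PT.and (PT.not PT.snd.comp_fst) PT.snd.comp_snd) (PT.const true)
    (hf.zip (PT.tail.comp hf)))

theorem pt_le_const {f : δ → ℕ} (hf : PT (fun d => U.mk (f d))) (g : ℕ) :
    PT (fun d => decide (f d ≤ g)) :=
  PT.ule hf (PT.const (U.mk g))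

theorem pt_thin (g : ℕ) : PT (fun p : List U × List Bool => thin g p.1 p.2) :=
  PT.and (PT.and (pt_le_const (pt_ups PT.snd) g) (pt_le_const (pt_dns PT.snd) g))
    (PT.and (pt_le_const (pt_ups pt_vmask) g) (pt_le_const (pt_dns pt_vmask) g))

theorem pt_eqm : PT (fun p : List Bool × List Bool => eqm p.1 p.2) :=
  PT.all (g := fun p : Bool × (Bool × Bool) => p.2.1 == p.2.2) (e := fun _ => true)
    (PT.beq PT.snd.comp_fst PT.snd.comp_snd) (PT.const true) (PT.fst.zip PT.snd)

theorem pt_splits : PT (fun p : List Bool × (List Bool × List Bool) =>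
    splits p.1 p.2.1 p.2.2) :=
  PT.all (g := fun p : Bool × (Bool × (Bool × Bool)) =>
    (p.2.1 == (p.2.2.1 || p.2.2.2)) && !(p.2.2.1 && p.2.2.2)) (e := fun _ => true)
    (PT.and (PT.beq PT.snd.comp_fst (PT.or PT.snd.comp_snd.comp_fst PT.snd.comp_snd.comp_snd))
      (PT.not (PT.and PT.snd.comp_snd.comp_fst PT.snd.comp_snd.comp_snd)))
    (PT.const true) (PT.fst.zip (PT.snd.comp_fst.zip PT.snd.comp_snd))

theorem pt_round (g : ℕ) : PT (fun x : (List U × List (List Bool)) × List (List Bool) =>
    roundB g x.1.1 x.1.2 x.2) := by
  -- `∃ b, splits m a b`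
  have h1 : PT (fun z : (List (List Bool) × List Bool) × List Bool =>
      z.1.1.any fun b => splits z.1.2 z.2 b) := by
    have h0 : PT (fun w : (List Bool × List Bool) × List Bool => splits w.1.1 w.1.2 w.2) :=
      pt_splits.comp (PT.fst.comp_fst.pair (PT.fst.comp_snd.pair PT.snd))
    exact PT.any h0 (PT.fst.comp_snd.pair PT.snd) PT.fst.comp_fst
  -- `∃ a b, splits m a b`
  have h2 : PT (fun z : List (List Bool) × List Bool =>
      z.1.any fun a => z.1.any fun b => splits z.2 a b) :=
    PT.any h1 PT.id PT.fst
  have h3 : PT (fun z : List (List Bool) × List Bool => z.1.any fun a => eqm a z.2) := by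
    have h0 : PT (fun w : List Bool × List Bool => eqm w.2 w.1) :=
      pt_eqm.comp (PT.snd.pair PT.fst)
    exact PT.any h0 PT.snd PT.fst
  have h4 : PT (fun z : (List U × List (List Bool)) × List Bool =>
      (z.1.2.any fun a => eqm a z.2) ||
        (thin g z.1.1 z.2 && z.1.2.any fun a => z.1.2.any fun b => splits z.2 a b)) :=
    PT.or (h3.comp (PT.fst.comp_snd.pair PT.snd))
      (PT.and ((pt_thin g).comp (PT.fst.comp_fst.pair PT.snd))
        (h2.comp (PT.fst.comp_snd.pair PT.snd)))
  exact PT.filter h4 (PT.fst.comp_fst.pair PT.snd) PT.fst.comp_snd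

theorem pt_rwidB (g : ℕ) : PT (rwidB g) := by
  have hC := pt_cands g
  have h0 : PT (fun l : List U => initB (cands g l.length)) :=
    PT.filter (g := fun p : Bool × List Bool => decide (ones p.2 ≤ 1)) (e := fun _ => true)
      (pt_le_const (pt_ones PT.snd) 1) (PT.const true) hC
  have hit := PT.iter (g := fun x : (List U × List (List Bool)) × List (List Bool) =>
      roundB g x.1.1 x.1.2 x.2) (e := fun l : List U => (l, cands g l.length))
    (s := fun l => initB (cands g l.length)) (n := fun l => U.mk l.length) (pt_round g)
    Polynomial.X (by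
      intro e s
      have h1 : (enc (roundB g e.1 e.2 s)).length ≤ (enc e.2).length :=
        length_enc_filter_le _ _
      have h2 : (enc e).length = 2 * (enc e.1).length + 1 + (enc e.2).length := by
        rcases e with ⟨a, b⟩
        exact length_enc_pair a b
      rw [Polynomial.eval_X]
      simp only
      omega) (PT.id.pair hC) h0 (PT.length PT.id)
  have h5 : PT (fun q : Bool × List Bool => q.2.all fun b => b) :=
    PT.all (g := fun p : Bool × Bool => p.2) (e := fun _ => true) PT.snd (PT.const true) PT.snd
  exact PT.any (g := fun q : Bool × List Bool => q.2.all fun b => b) (e := fun _ => true) h5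
    (PT.const true) hit

end

end Pool.Agent.PPMDec
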