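import Mathlib
import Pool.Agent.PPMDec.DecideAlg

/-!
# Lists of bits: counting and intervals
-/

set_option autoImplicit false
set_option linter.dupNamespace false

namespace Pool.Agent.PPMDec

open Function Pool.Agent.PT Pool.Agent.PPM

theorem length_zip_filter (f : Bool → Bool → Bool) (m : List Bool) :
    ((m.zip m.tail).filter fun p => f p.1 p.2).length =
      ((Finset.range m.length).filter fun i => i + 1 < m.length ∧
        f (m.getD i false) (m.getD (i + 1) false) = true).card := by
  induction m with
  | nil => simp
  | cons a t ih =>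
    cases t with
    | nil => simp
    | cons b t =>
      rw [Finset.card_filter] at ih ⊢
      rw [List.tail_cons] at ih ⊢
      rw [List.zip_cons_cons, List.filter_cons]
      rw [show (a :: b :: t).length = (b :: t).length + 1 from rfl, Finset.sum_range_succ']
      have e1 : ∀ i, (a :: b :: t).getD (i + 1) false = (b :: t).getD i false := fun i => rfl
      have e2 : (a :: b :: t).getD 0 false = a := rfl
      have e3 : (b :: t).getD 0 false = b := rfl
      simp only [e1, e2, Nat.zero_add, Nat.add_lt_add_iff_right]
      rw [e3]
      split_ifs with h1 h2 h2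
      · rw [List.length_cons, ih]
      · exact absurd ⟨by simp, h1⟩ h2
      · exact absurd h2.2 h1
      · rw [ih, Nat.add_zero]

theorem ups_eq (m : List Bool) : ups m = ((Finset.range m.length).filter fun i =>
    i + 1 < m.length ∧ m.getD i false = true ∧ m.getD (i + 1) false = false).card := by
  rw [ups, length_zip_filter (fun a b => a && !b)]
  congr 1
  ext i
  simp

theorem dns_eq (m : List Bool) : dns m = ((Finset.range m.length).filter fun i =>
    i + 1 < m.length ∧ m.getD i false = false ∧ m.getD (i + 1) false = true).card := by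
  rw [dns, length_zip_filter (fun a b => !a && b)]
  congr 1
  ext i
  simp

theorem length_maskOf (n : ℕ) (I : List (U × U)) : (maskOf n I).length = n := by
  simp [maskOf, rangeU]

theorem maskOf_getD {n : ℕ} {I : List (U × U)} {i : ℕ} (hi : i < n) :
    (maskOf n I).getD i false = true ↔ ∃ p ∈ I, p.1.val ≤ i ∧ i < p.2.val := by
  rw [List.getD_eq_getElem?_getD, List.getElem?_eq_getElem (by rw [length_maskOf]; exact hi)]
  simp [maskOf, rangeU]

theorem mem_pairsU {n : ℕ} {p : U × U} : p ∈ pairsU n ↔ p.1.val ≤ n ∧ p.2.val ≤ n := by
  rcases p with ⟨⟨a⟩, ⟨b⟩⟩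
  simp [pairsU, rangeU]

theorem mem_cands {g n : ℕ} {m : List Bool} (h : m ∈ cands g n) : m.length = n := by
  rw [cands, List.mem_map] at h
  obtain ⟨I, _, rfl⟩ := h
  exact length_maskOf n I

/-- a set with few right ends is a candidate -/
theorem mem_cands_of_ups {g n : ℕ} {m : List Bool} (hn : m.length = n) (hg : ups m ≤ g) :
    m ∈ cands g n := by
  classical
  -- the function
  let a : ℕ → Prop := fun i => m.getD i false = true
  have ha : ∀ i, a i → i < n := by
    intro i hi
    by_contra hcon
    have h1 : m.getD i false = false := by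
      rw [List.getD_eq_getElem?_getD, List.getElem?_eq_none (by omega)]
      rfl
    have h2 : m.getD i false = true := hi
    rw [h1] at h2
    exact absurd h2 (by decide)
  let Rs : Finset ℕ := (Finset.range n).filter fun r => a r ∧ ¬ a (r + 1)
  have hRs : Rs.card ≤ g + 1 := by
    have h1 : Rs ⊆ insert (n - 1) ((Finset.range m.length).filter fun i =>
        i + 1 < m.length ∧ m.getD i false = true ∧ m.getD (i + 1) false = false) := by
      intro r hr
      rw [Finset.mem_filter, Finset.mem_range] at hr
      obtain ⟨h1, h2, h3⟩ := hr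
      rw [Finset.mem_insert]
      by_cases h4 : r + 1 < n
      · right
        rw [Finset.mem_filter, Finset.mem_range]
        exact ⟨by omega, by omega, h2, by simpa only [a, Bool.not_eq_true] using h3⟩
      · left
        omega
    refine le_trans (Finset.card_le_card h1) (le_trans (Finset.card_insert_le _ _) ?_)
    rw [← ups_eq]
    omega
  -- the left end
  have hlo : ∀ r, ∃ x, (a r → x ≤ r) ∧ (∀ y, x ≤ y → y ≤ r → a y) ∧
      ∀ z, (∀ y, z ≤ y → y ≤ r → a y) → x ≤ z := by
    intro r
    have hex : ∃ x, ∀ y, x ≤ y → y ≤ r → a y := ⟨r + 1, fun y h1 h2 => by omega⟩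
    refine ⟨Nat.find hex, fun hr => ?_, Nat.find_spec hex, fun z hz => Nat.find_min' hex hz⟩
    refine Nat.find_min' hex fun y h1 h2 => ?_
    have : y = r := by omega
    rw [this]
    exact hr
  choose lo hlo1 hlo2 hlo3 using hlo
  let I : List (U × U) := Rs.toList.map fun r => (U.mk (lo r), U.mk (r + 1))
  let J : List (U × U) := I ++ List.replicate (g + 1 - I.length) (U.mk 0, U.mk 0)
  have hIlen : I.length ≤ g + 1 := by simpa [I] using hRs
  have hJ : J ∈ tupK (pairsU n) (g + 1) := by
    rw [mem_tupK]
    refine ⟨by simp only [J, List.length_append, List.length_replicate]; omega, ?_⟩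
    intro u hu
    rw [List.mem_append] at hu
    rcases hu with hu | hu
    · rw [List.mem_map] at hu
      obtain ⟨r, hr, rfl⟩ := hu
      rw [Finset.mem_toList, Finset.mem_filter, Finset.mem_range] at hr
      rw [mem_pairsU]
      have := hlo1 r hr.2.1
      exact ⟨by simp only; omega, by simp only; omega⟩
    · rw [List.eq_of_mem_replicate hu, mem_pairsU]
      exact ⟨Nat.zero_le _, Nat.zero_le _⟩
  rw [cands, List.mem_map]
  refine ⟨J, hJ, ?_⟩
  apply List.ext_getElem
  · rw [length_maskOf, hn]
  · intro i h1 h2
    rw [length_maskOf] at h1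
    have e1 : (maskOf n J).getD i false = (maskOf n J)[i] := by
      rw [List.getD_eq_getElem?_getD, List.getElem?_eq_getElem (by rw [length_maskOf]; exact h1)]
      rfl
    have e2 : m.getD i false = m[i] := by
      rw [List.getD_eq_getElem?_getD, List.getElem?_eq_getElem h2]
      rfl
    rw [← e1, ← e2, Bool.eq_iff_iff, maskOf_getD h1]
    constructor
    · rintro ⟨p, hp, hp1, hp2⟩
      rw [List.mem_append] at hp
      rcases hp with hp | hp
      · rw [List.mem_map] at hp
        obtain ⟨r, hr, rfl⟩ := hp
        simp only at hp1 hp2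
        exact hlo2 r i hp1 (by omega)
      · rw [List.eq_of_mem_replicate hp] at hp2
        simp only at hp2
        omega
    · intro hi
      -- the right end
      have hex : ∃ d, ¬ a (i + d + 1) := ⟨n, fun h => by have := ha _ h; omega⟩
      have hmin : ∀ d < Nat.find hex, a (i + d + 1) := fun d hd => not_not.mp (Nat.find_min hex hd)
      have hall : ∀ y, i ≤ y → y ≤ i + Nat.find hex → a y := by
        intro y h3 h4
        rcases Nat.eq_or_lt_of_le h3 with h5 | h5
        · rw [← h5]; exact hi
        · have := hmin (y - i - 1) (by omega)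
          rwa [show i + (y - i - 1) + 1 = y by omega] at this
      have hr : i + Nat.find hex ∈ Rs := by
        rw [Finset.mem_filter, Finset.mem_range]
        have h5 := hall (i + Nat.find hex) (by omega) le_rfl
        exact ⟨ha _ h5, h5, Nat.find_spec hex⟩
      refine ⟨(U.mk (lo (i + Nat.find hex)), U.mk (i + Nat.find hex + 1)), ?_, ?_, ?_⟩
      · exact List.mem_append_left _ (List.mem_map.mpr ⟨_, Finset.mem_toList.mpr hr, rfl⟩)
      · exact hlo3 _ i hall
      · simp only
        omega

end Pool.Agent.PPMDec
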