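import Mathlib
import Pool.Agent.PPMDec.DecideA
import Pool.Agent.PPMDec.RDec

/-!
# Deciding in polynomial time whether a permutation is narrow: correctness
-/

set_option autoImplicit false
set_option linter.dupNamespace false

namespace Pool.Agent.PPMDec

open Function Pool.Agent.PT Pool.Agent.PPM

/-- the list of bits `m` represents the set `A` in the order given by `e` -/
def Repm {n : ℕ} (e : Equiv.Perm (Fin n)) (m : List Bool) (A : Finset (Fin n)) : Prop :=
  m.length = n ∧ ∀ i : Fin n, (m.getD (e i).val false = true ↔ i ∈ A)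

theorem next_iff {n : ℕ} (e : Equiv.Perm (Fin n)) (p q : Fin n) :
    Next (fun i : Fin n => ((e i).val : ℤ)) Finset.univ p q ↔ (e q).val = (e p).val + 1 := by
  constructor
  · rintro ⟨_, _, h1, h2⟩
    simp only at h1
    by_contra hcon
    have h3 : (e p).val + 1 < (e q).val := by omega
    have hlt : (e p).val + 1 < n := by have := (e q).isLt; omega
    have h4 := h2 (e.symm ⟨(e p).val + 1, hlt⟩) (Finset.mem_univ _)
    simp only [Equiv.apply_symm_apply] at h4
    omega
  · intro h
    refine ⟨Finset.mem_univ _, Finset.mem_univ _, by simp only; omega, fun r _ => ?_⟩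
    simp only
    omega

theorem Repm.false_iff {n : ℕ} {e : Equiv.Perm (Fin n)} {m : List Bool} {A : Finset (Fin n)}
    (h : Repm e m A) (i : Fin n) : m.getD (e i).val false = false ↔ i ∉ A := by
  rw [← h.2 i, Bool.not_eq_true]

theorem Repm.ups {n : ℕ} {e : Equiv.Perm (Fin n)} {m : List Bool} {A : Finset (Fin n)}
    (h : Repm e m A) :
    ups m = (RB (fun i : Fin n => ((e i).val : ℤ)) Finset.univ A).card := by
  rw [ups_eq]
  symm
  refine Finset.card_bij (fun p _ => (e p).val) ?_ ?_ ?_
  · intro p hp
    obtain ⟨h1, q, h2, h3⟩ := mem_RB.mp hp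
    rw [next_iff] at h2
    have hq := (e q).isLt
    rw [Finset.mem_filter, Finset.mem_range, h.1]
    refine ⟨(e p).isLt, by omega, (h.2 p).mpr h1, ?_⟩
    rw [← h2]
    exact (h.false_iff q).mpr h3
  · intro p _ q _ hpq
    exact e.injective (Fin.ext hpq)
  · intro v hv
    rw [Finset.mem_filter, Finset.mem_range, h.1] at hv
    obtain ⟨h1, h2, h3, h4⟩ := hv
    have e1 : (e (e.symm ⟨v, h1⟩)).val = v := by simp
    have e2 : (e (e.symm ⟨v + 1, h2⟩)).val = v + 1 := by simp
    refine ⟨e.symm ⟨v, h1⟩, mem_RB.mpr ⟨?_, e.symm ⟨v + 1, h2⟩, ?_, ?_⟩, e1⟩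
    · rw [← h.2, e1]; exact h3
    · rw [next_iff, e1, e2]
    · rw [← h.false_iff, e2]; exact h4

theorem Repm.dns {n : ℕ} {e : Equiv.Perm (Fin n)} {m : List Bool} {A : Finset (Fin n)}
    (h : Repm e m A) :
    dns m = (LB (fun i : Fin n => ((e i).val : ℤ)) Finset.univ A).card := by
  rw [dns_eq]
  symm
  refine Finset.card_bij (fun p _ => (e p).val - 1) ?_ ?_ ?_
  · intro p hp
    obtain ⟨h1, q, h2, h3⟩ := mem_LB.mp hp
    rw [next_iff] at h2
    have hp' := (e p).isLt
    rw [Finset.mem_filter, Finset.mem_range, h.1]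
    refine ⟨by omega, by omega, ?_, ?_⟩
    · rw [show (e p).val - 1 = (e q).val by omega]
      exact (h.false_iff q).mpr h3
    · rw [show (e p).val - 1 + 1 = (e p).val by omega]
      exact (h.2 p).mpr h1
  · intro p hp q hq hpq
    obtain ⟨_, p', h2, _⟩ := mem_LB.mp hp
    obtain ⟨_, q', h5, _⟩ := mem_LB.mp hq
    rw [next_iff] at h2 h5
    refine e.injective (Fin.ext ?_)
    omega
  · intro v hv
    rw [Finset.mem_filter, Finset.mem_range, h.1] at hv
    obtain ⟨h1, h2, h3, h4⟩ := hv
    have e1 : (e (e.symm ⟨v, h1⟩)).val = v := by simp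
    have e2 : (e (e.symm ⟨v + 1, h2⟩)).val = v + 1 := by simp
    refine ⟨e.symm ⟨v + 1, h2⟩, mem_LB.mpr ⟨?_, e.symm ⟨v, h1⟩, ?_, ?_⟩, ?_⟩
    · rw [← h.2, e2]; exact h4
    · rw [next_iff, e1, e2]
    · rw [← h.false_iff, e1]; exact h3
    · rw [e2]; rfl

theorem ones_eq (m : List Bool) : ones m =
    ((Finset.range m.length).filter fun i => m.getD i false = true).card := by
  rw [ones]
  induction m with
  | nil => simp
  | cons a t ih =>
    rw [Finset.card_filter] at ih ⊢
    rw [List.filter_cons, List.length_cons, Finset.sum_range_succ']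
    have e1 : ∀ i, (a :: t).getD (i + 1) false = t.getD i false := fun i => rfl
    have e2 : (a :: t).getD 0 false = a := rfl
    simp only [e1, e2]
    split_ifs with h1
    · rw [List.length_cons, ih]
    · rw [ih, Nat.add_zero]

theorem Repm.ones {n : ℕ} {e : Equiv.Perm (Fin n)} {m : List Bool} {A : Finset (Fin n)}
    (h : Repm e m A) : ones m = A.card := by
  rw [ones_eq]
  symm
  refine Finset.card_bij (fun p _ => (e p).val) ?_ ?_ ?_
  · intro p hp
    rw [Finset.mem_filter, Finset.mem_range, h.1]
    exact ⟨(e p).isLt, (h.2 p).mpr hp⟩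
  · intro p _ q _ hpq
    exact e.injective (Fin.ext hpq)
  · intro v hv
    rw [Finset.mem_filter, Finset.mem_range, h.1] at hv
    refine ⟨e.symm ⟨v, hv.1⟩, ?_, by simp⟩
    rw [← h.2]
    simpa using hv.2

/-- tests for pairs of lists of the same length -/
theorem all_zip {α β : Type} {a : List α} {b : List β} {n : ℕ} (ha : a.length = n)
    (hb : b.length = n) (f : α × β → Bool) (x : α) (y : β) :
    (a.zip b).all f = true ↔ ∀ i < n, f (a.getD i x, b.getD i y) = true := by
  rw [List.all_eq_true]
  constructor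
  · intro h i hi
    rw [List.getD_eq_getElem?_getD, List.getD_eq_getElem?_getD,
      List.getElem?_eq_getElem (by omega), List.getElem?_eq_getElem (by omega)]
    refine h _ ?_
    rw [List.mem_iff_getElem]
    exact ⟨i, by rw [List.length_zip]; omega, by simp⟩
  · intro h p hp
    rw [List.mem_iff_getElem] at hp
    obtain ⟨i, hi, rfl⟩ := hp
    rw [List.length_zip] at hi
    have h1 := h i (by omega)
    rw [List.getD_eq_getElem?_getD, List.getD_eq_getElem?_getD,
      List.getElem?_eq_getElem (by omega), List.getElem?_eq_getElem (by omega)] at h1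
    simpa using h1

theorem any_zip {α β : Type} {a : List α} {b : List β} {n : ℕ} (ha : a.length = n)
    (hb : b.length = n) (f : α × β → Bool) (x : α) (y : β) :
    (a.zip b).any f = true ↔ ∃ i < n, f (a.getD i x, b.getD i y) = true := by
  have h := all_zip ha hb (fun p => !f p) x y
  have h1 : (a.zip b).any f = !((a.zip b).all fun p => !f p) := by
    rw [List.any_eq_not_all_not]
  rw [h1, Bool.not_eq_true', ← Bool.not_eq_true, h]
  push Not
  simp

theorem values_getD (σ : Permutation) (i : Fin σ.1) :
    (values σ).getD i.val ⟨0⟩ = U.mk (σ.2 i).val := by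
  rw [List.getD_eq_getElem?_getD, List.getElem?_eq_getElem (by simp [values])]
  simp [values]

theorem length_values (σ : Permutation) : (values σ).length = σ.1 := by simp [values]

theorem Repm.vmask {σ : Permutation} {m : List Bool} {A : Finset (Fin σ.1)}
    (h : Repm (Equiv.refl _) m A) : Repm σ.2 (vmask (values σ) m) A := by
  refine ⟨by simp [PPMDec.vmask, rangeU, length_values], fun i => ?_⟩
  rw [List.getD_eq_getElem?_getD, List.getElem?_eq_getElem
    (by simp [PPMDec.vmask, rangeU, length_values])]
  have e1 : (PPMDec.vmask (values σ) m)[(σ.2 i).val]'(by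
      simp [PPMDec.vmask, rangeU, length_values]) =
      ((values σ).zip m).any fun p => decide (p.1 = U.mk (σ.2 i).val) && p.2 := by
    simp [PPMDec.vmask, rangeU]
  rw [Option.getD_some, e1, any_zip (length_values σ) h.1 _ ⟨0⟩ false]
  constructor
  · rintro ⟨j, hj, h1⟩
    rw [Bool.and_eq_true, decide_eq_true_iff] at h1
    have h2 := values_getD σ ⟨j, hj⟩
    simp only at h1 h2
    rw [h2] at h1
    have h3 : σ.2 ⟨j, hj⟩ = σ.2 i := Fin.ext (by simpa using h1.1)
    have h4 := σ.2.injective h3
    rw [← h4]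
    exact (h.2 ⟨j, hj⟩).mp h1.2
  · intro hi
    refine ⟨i.val, i.isLt, ?_⟩
    rw [Bool.and_eq_true, decide_eq_true_iff]
    exact ⟨values_getD σ i, (h.2 i).mpr hi⟩

theorem thin_iff {g : ℕ} {σ : Permutation} {m : List Bool} {A : Finset (Fin σ.1)}
    (h : Repm (Equiv.refl _) m A) : thin g (values σ) m = true ↔
      ((RB (fun i : Fin σ.1 => (i.val : ℤ)) Finset.univ A).card ≤ g ∧
        (LB (fun i : Fin σ.1 => (i.val : ℤ)) Finset.univ A).card ≤ g) ∧
      (RB (fun i : Fin σ.1 => ((σ.2 i).val : ℤ)) Finset.univ A).card ≤ g ∧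
        (LB (fun i : Fin σ.1 => ((σ.2 i).val : ℤ)) Finset.univ A).card ≤ g := by
  have h1 := h.ups
  have h2 := h.dns
  simp only [Equiv.refl_apply] at h1 h2
  rw [thin, Bool.and_eq_true, Bool.and_eq_true, Bool.and_eq_true, decide_eq_true_iff,
    decide_eq_true_iff, decide_eq_true_iff, decide_eq_true_iff, h1, h2, h.vmask.ups, h.vmask.dns]

/-- the list of bits of a set -/
def maskA {n : ℕ} (A : Finset (Fin n)) : List Bool := List.ofFn fun i => decide (i ∈ A)

theorem repm_maskA {n : ℕ} (A : Finset (Fin n)) : Repm (Equiv.refl _) (maskA A) A := by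
  refine ⟨by simp [maskA], fun i => ?_⟩
  rw [Equiv.refl_apply, List.getD_eq_getElem?_getD, List.getElem?_eq_getElem (by simp [maskA])]
  simp [maskA]

theorem exists_repm {n : ℕ} {m : List Bool} (h : m.length = n) :
    ∃ A : Finset (Fin n), Repm (Equiv.refl _) m A :=
  ⟨Finset.univ.filter fun i => m.getD i.val false = true, h, fun i => by simp⟩

theorem eqm_iff {n : ℕ} {a m : List Bool} {A B : Finset (Fin n)} (ha : Repm (Equiv.refl _) a A)
    (hm : Repm (Equiv.refl _) m B) : eqm a m = true ↔ A = B := by
  rw [eqm, all_zip ha.1 hm.1 _ false false]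
  constructor
  · intro h
    ext i
    have h1 := h i.val i.isLt
    have h2 := ha.2 i
    have h3 := hm.2 i
    simp only [Equiv.refl_apply] at h1 h2 h3
    rw [← h2, ← h3]
    rw [beq_iff_eq] at h1
    rw [h1]
  · rintro rfl i hi
    have h2 := ha.2 ⟨i, hi⟩
    have h3 := hm.2 ⟨i, hi⟩
    simp only [Equiv.refl_apply] at h2 h3
    simp only
    rw [beq_iff_eq, Bool.eq_iff_iff, h2, h3]

theorem splits_iff {n : ℕ} {m a b : List Bool} {A B C : Finset (Fin n)}
    (hm : Repm (Equiv.refl _) m C) (ha : Repm (Equiv.refl _) a A)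
    (hb : Repm (Equiv.refl _) b B) : splits m a b = true ↔ C = A ∪ B ∧ Disjoint A B := by
  rw [splits, all_zip hm.1 (by rw [List.length_zip, ha.1, hb.1, min_self]) _ false (false, false)]
  have key : ∀ i < n, ((a.zip b).getD i (false, false)) = (a.getD i false, b.getD i false) := by
    intro i hi
    rw [List.getD_eq_getElem?_getD, List.getD_eq_getElem?_getD, List.getD_eq_getElem?_getD,
      List.getElem?_eq_getElem (by rw [List.length_zip, ha.1, hb.1, min_self]; exact hi),
      List.getElem?_eq_getElem (by rw [ha.1]; exact hi),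
      List.getElem?_eq_getElem (by rw [hb.1]; exact hi)]
    simp
  constructor
  · intro h
    have h1 : ∀ i : Fin n, (i ∈ C ↔ i ∈ A ∨ i ∈ B) ∧ ¬ (i ∈ A ∧ i ∈ B) := by
      intro i
      have h2 := h i.val i.isLt
      rw [key i.val i.isLt] at h2
      have h3 := hm.2 i
      have h4 := ha.2 i
      have h5 := hb.2 i
      simp only [Equiv.refl_apply] at h3 h4 h5
      simp only [Bool.and_eq_true, beq_iff_eq, Bool.not_eq_true', Bool.and_eq_false_iff] at h2
      obtain ⟨h6, h7⟩ := h2
      rw [← h3, ← h4, ← h5, h6, Bool.or_eq_true]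
      refine ⟨Iff.rfl, ?_⟩
      rintro ⟨h8, h9⟩
      rcases h7 with h7 | h7
      · rw [h7] at h8; exact absurd h8 (by decide)
      · rw [h7] at h9; exact absurd h9 (by decide)
    refine ⟨?_, ?_⟩
    · ext i
      rw [Finset.mem_union]
      exact (h1 i).1
    · rw [Finset.disjoint_left]
      exact fun i hi hi' => (h1 i).2 ⟨hi, hi'⟩
  · rintro ⟨rfl, hd⟩ i hi
    rw [key i hi]
    have h3 := hm.2 ⟨i, hi⟩
    have h4 := ha.2 ⟨i, hi⟩
    have h5 := hb.2 ⟨i, hi⟩
    simp only [Equiv.refl_apply] at h3 h4 h5
    rw [Finset.disjoint_left] at hd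
    have h6 := @hd ⟨i, hi⟩
    rw [Finset.mem_union, ← h4, ← h5] at h3
    rw [← h4, ← h5] at h6
    revert h3 h6
    simp only
    cases m.getD i false <;> cases a.getD i false <;> cases b.getD i false <;> simp

/-- the rounds of the algorithm -/
theorem rounds_iff {g : ℕ} (hg : 1 ≤ g) (σ : Permutation) (k : ℕ) :
    (∀ m ∈ (roundB g (values σ) (cands g (values σ).length))^[k]
        (initB (cands g (values σ).length)), m.length = σ.1 ∧ ∀ A : Finset (Fin σ.1),
      Repm (Equiv.refl _) m A → RDec (fun i : Fin σ.1 => (i.val : ℤ))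
        (fun i => ((σ.2 i).val : ℤ)) Finset.univ g A) ∧
    ∀ A : Finset (Fin σ.1), A.card ≤ k + 1 → RDec (fun i : Fin σ.1 => (i.val : ℤ))
        (fun i => ((σ.2 i).val : ℤ)) Finset.univ g A →
      maskA A ∈ (roundB g (values σ) (cands g (values σ).length))^[k]
        (initB (cands g (values σ).length)) := by
  have hlen : (values σ).length = σ.1 := length_values σ
  have honce : ∀ (A : Finset (Fin σ.1)) (m : List Bool), Repm (Equiv.refl _) m A →
      ones m = A.card := fun A m hm => hm.ones
  have hcand : ∀ A : Finset (Fin σ.1), RDec (fun i : Fin σ.1 => (i.val : ℤ))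
      (fun i => ((σ.2 i).val : ℤ)) Finset.univ g A → maskA A ∈ cands g (values σ).length := by
    intro A hA
    refine mem_cands_of_ups (by simp [maskA, hlen]) ?_
    rw [(repm_maskA A).ups]
    simp only [Equiv.refl_apply]
    cases hA with
    | empty => simp [RB]
    | single hp =>
      refine le_trans (Finset.card_le_card (fun x hx => (mem_RB.mp hx).1)) ?_
      simpa using hg
    | union _ _ _ h1 _ _ _ => exact h1
  induction k with
  | zero =>
    constructor
    · intro m hm
      rw [Function.iterate_zero, id, initB, List.mem_filter, decide_eq_true_iff] at hm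
      refine ⟨by rw [mem_cands hm.1, hlen], fun A hA => ?_⟩
      rw [honce A m hA] at hm
      rcases Nat.lt_or_ge A.card 1 with h1 | h1
      · have : A = ∅ := Finset.card_eq_zero.mp (by omega)
        rw [this]
        exact RDec.empty
      · obtain ⟨p, rfl⟩ := Finset.card_eq_one.mp (show A.card = 1 by omega)
        exact RDec.single (Finset.mem_univ p)
    · intro A hA hD
      rw [Function.iterate_zero, id, initB, List.mem_filter, decide_eq_true_iff]
      exact ⟨hcand A hD, by rw [honce A _ (repm_maskA A)]; exact hA⟩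
  | succ k ih =>
    obtain ⟨ih1, ih2⟩ := ih
    rw [Function.iterate_succ_apply']
    constructor
    · intro m hm
      rw [roundB, List.mem_filter, Bool.or_eq_true, Bool.and_eq_true, List.any_eq_true,
        List.any_eq_true] at hm
      obtain ⟨hmC, hm2⟩ := hm
      refine ⟨by rw [mem_cands hmC, hlen], fun C hC => ?_⟩
      rcases hm2 with ⟨a, ha, h1⟩ | ⟨h1, a, ha, h2⟩
      · obtain ⟨ha1, ha2⟩ := ih1 a ha
        obtain ⟨A, hA⟩ := exists_repm ha1
        have h3 := (eqm_iff hA hC).mp h1
        rw [← h3]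
        exact ha2 A hA
      · rw [List.any_eq_true] at h2
        obtain ⟨b, hb, h3⟩ := h2
        obtain ⟨ha1, ha2⟩ := ih1 a ha
        obtain ⟨hb1, hb2⟩ := ih1 b hb
        obtain ⟨A, hA⟩ := exists_repm ha1
        obtain ⟨B, hB⟩ := exists_repm hb1
        obtain ⟨h4, h5⟩ := (splits_iff hC hA hB).mp h3
        rw [thin_iff hC] at h1
        rw [h4] at h1 ⊢
        exact RDec.union (ha2 A hA) (hb2 B hB) h5 h1.1.1 h1.1.2 h1.2.1 h1.2.2
    · intro A hA hD
      have hstay : ∀ A : Finset (Fin σ.1), A.card ≤ k + 1 →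
          RDec (fun i : Fin σ.1 => (i.val : ℤ)) (fun i => ((σ.2 i).val : ℤ)) Finset.univ g A →
          maskA A ∈ roundB g (values σ) (cands g (values σ).length)
            ((roundB g (values σ) (cands g (values σ).length))^[k]
              (initB (cands g (values σ).length))) := by
        intro A hA hD
        rw [roundB, List.mem_filter, Bool.or_eq_true, List.any_eq_true]
        exact ⟨hcand A hD, Or.inl ⟨maskA A, ih2 A hA hD,
          (eqm_iff (repm_maskA A) (repm_maskA A)).mpr rfl⟩⟩
      induction hD with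
      | empty => exact hstay ∅ (by simp) RDec.empty
      | @single p hp => exact hstay {p} (by simp) (RDec.single hp)
      | @union B C hB hC hd h1 h2 h3 h4 ihB ihC =>
        have hBC := RDec.union hB hC hd h1 h2 h3 h4
        rw [Finset.card_union_of_disjoint hd] at hA
        rcases Nat.eq_zero_or_pos B.card with hB0 | hB0
        · have hB1 : B = ∅ := Finset.card_eq_zero.mp hB0
          rw [hB1, Finset.empty_union]
          exact ihC (by omega)
        · rcases Nat.eq_zero_or_pos C.card with hC0 | hC0
          · have hC1 : C = ∅ := Finset.card_eq_zero.mp hC0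
            rw [hC1, Finset.union_empty]
            exact ihB (by omega)
          · rw [roundB, List.mem_filter, Bool.or_eq_true, Bool.and_eq_true, List.any_eq_true,
              List.any_eq_true]
            refine ⟨hcand _ hBC, Or.inr ⟨(thin_iff (repm_maskA _)).mpr ⟨⟨h1, h2⟩, h3, h4⟩,
              maskA B, ih2 B (by omega) hB, ?_⟩⟩
            rw [List.any_eq_true]
            exact ⟨maskA C, ih2 C (by omega) hC,
              (splits_iff (repm_maskA _) (repm_maskA B) (repm_maskA C)).mpr ⟨rfl, hd⟩⟩

theorem rwidB_iff {g : ℕ} (hg : 1 ≤ g) (σ : Permutation) :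
    rwidB g (values σ) = true ↔ RWid g σ := by
  obtain ⟨h1, h2⟩ := rounds_iff hg σ (values σ).length
  have hall : ∀ (m : List Bool) (A : Finset (Fin σ.1)), Repm (Equiv.refl _) m A →
      ((m.all fun b => b) = true ↔ A = Finset.univ) := by
    intro m A hm
    have h3 : (m.all fun b => b) = true ↔ ∀ i < σ.1, m.getD i false = true := by
      rw [List.all_eq_true]
      constructor
      · intro h i hi
        rw [List.getD_eq_getElem?_getD, List.getElem?_eq_getElem (by rw [hm.1]; exact hi)]
        exact h _ (List.getElem_mem _)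
      · intro h b hb
        rw [List.mem_iff_getElem] at hb
        obtain ⟨i, hi, rfl⟩ := hb
        have h4 := h i (by rw [← hm.1]; exact hi)
        rwa [List.getD_eq_getElem?_getD, List.getElem?_eq_getElem hi] at h4
    rw [h3]
    constructor
    · intro h
      ext i
      rw [← hm.2 i]
      simpa using h i.val i.isLt
    · rintro rfl i hi
      have h5 := hm.2 ⟨i, hi⟩
      simpa using h5
  rw [rwidB, List.any_eq_true]
  constructor
  · rintro ⟨m, hm, hm2⟩
    obtain ⟨h3, h4⟩ := h1 m hm
    obtain ⟨A, hA⟩ := exists_repm h3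
    have h5 := h4 A hA
    rw [(hall m A hA).mp hm2] at h5
    exact h5
  · intro h
    refine ⟨maskA Finset.univ, h2 Finset.univ ?_ h, (hall _ _ (repm_maskA _)).mpr rfl⟩
    rw [Finset.card_univ, Fintype.card_fin, length_values]
    omega

end Pool.Agent.PPMDec
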