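import Mathlib
import Pool.Agent.Lib_helper89.PPM.Defs

/-!
# Primitive recursive classes and the two readings of C-Pattern PPM: definitions
-/

set_option autoImplicit false

namespace Pool.Agent.PPM

/-- The membership problem of the class `C` is solved by a primitive recursive (in particular
computable) algorithm: given a list of natural numbers, decide whether it is the list of the values
of a permutation of `C`. -/
def PrimrecClass (C : Set Permutation) : Prop :=
  PrimrecPred fun l : List ℕ => ∃ π ∈ C, List.ofFn (fun i => (π.2 i).val) = l

/-- The language `L` reduces to the language of all pairs (pattern, text) such that the pattern is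
in `C` and the text contains the pattern: here the reduction may output patterns outside `C`, and
such pairs are no-instances. -/
def ReducesToPatternPPMLanguage (L : List Bool → Bool) (C : Set Permutation) : Prop :=
  ∃ f : List Bool → Permutation × Permutation, N68a2faeb.IsPolyTime f ∧
    ∀ x, L x = true ↔ ((f x).1 ∈ C ∧ Contains (f x).2 (f x).1)

/-- The language of C-Pattern PPM is NP-hard under polynomial-time many-one reductions. -/
def PatternPPMLanguageHard (C : Set Permutation) : Prop :=
  ∀ L ∈ N68a2faeb.NP, ReducesToPatternPPMLanguage L C

end Pool.Agent.PPM
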