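import Mathlib
import Pool.Agent.PPMDec.Bad
import Pool.Agent.PPMDec.Decide
import Pool.Agent.Lib_helper89.PPM.Main

/-!
# If the search of a stage never succeeds, the language is in P
-/

set_option autoImplicit false
set_option linter.dupNamespace false

namespace Pool.Agent.PPMDec

open Function Pool.Agent.PT Pool.Agent.PPM N487b59b3

/-- the permutations of size at most `n` -/
theorem finite_perms (n : ℕ) : {π : Permutation | π.1 ≤ n}.Finite := by
  have h : {π : Permutation | π.1 ≤ n} ⊆
      Set.range fun p : (Σ m : Fin (n + 1), Equiv.Perm (Fin m.1)) => (⟨p.1.1, p.2⟩ : Permutation) := by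
    rintro ⟨m, π⟩ hm
    exact ⟨⟨⟨m, Nat.lt_succ_of_le hm⟩, π⟩, rfl⟩
  exact (Set.finite_range _).subset h

/-- no member of a fixed list of patterns is contained in the permutation -/
theorem pt_avoids {δ : Type} [N487b59b3 δ] (K : ℕ) (F : List Permutation) {f : δ → Permutation}
    (hf : PT f) : PT fun d => F.all fun σ => !alg K (values σ) (values (f d)) := by
  induction F with
  | nil => exact PT.const true
  | cons σ F ih =>
    refine (PT.and (PT.not ?_) ih).congr fun d => by rw [List.all_cons]
    exact (pt_alg K).comp ((PT.const (values σ)).pair (pt_values.comp hf))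

theorem nb : M_NB := by
  classical
  intro L K n C hC hCn hred
  choose π τ hout hL using hred
  -- the reduction is a polynomial-time function
  have hf : PT fun x => (π x, τ x) := by
    refine ⟨cmdOf K.unpair.1, (Polynomial.X + 2) ^ K.unpair.2, fun x => ?_⟩
    have h1 := runs_of_outp (hout x)
    refine h1.mono ?_
    unfold clock
    simp
  have hπ : PT π := hf.comp_fst
  have hτ : PT τ := hf.comp_snd
  -- the forbidden small permutations
  obtain ⟨F, hF⟩ : ∃ F : List Permutation, ∀ σ, σ ∈ F ↔ σ.1 ≤ n ∧ σ ∉ C := by
    have h1 : {σ : Permutation | σ.1 ≤ n ∧ σ ∉ C}.Finite :=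
      (finite_perms n).subset fun σ hσ => hσ.1
    refine ⟨h1.toFinset.toList, fun σ => ?_⟩
    simp
  let k : ℕ := max 68 n
  have hk : 1 ≤ k := le_trans (by norm_num) (le_max_left 68 n)
  -- membership
  let mem : List Bool → Bool := fun x =>
    if decide ((U.mk n).val < (U.mk (values (π x)).length).val) then rwidB 17 (values (π x))
    else F.all fun σ => !alg (3 * k) (values σ) (values (π x))
  have hlen : ∀ x, (values (π x)).length = (π x).1 := fun x => by simp [values]
  have hmem : ∀ x, mem x = true ↔ π x ∈ C := by
    intro x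
    simp only [mem, hlen]
    by_cases h : n < (π x).1
    · rw [if_pos (by simpa using h), rwidB_iff (by norm_num), hCn _ h]
    · rw [if_neg (by simpa using h), List.all_eq_true]
      constructor
      · intro h1
        by_contra h2
        have h3 := h1 _ ((hF _).mpr ⟨not_lt.mp h, h2⟩)
        have h4 : alg (3 * k) (values (π x)) (values (π x)) = true :=
          (alg_iff hk le_rfl (wid_of_length_le ((not_lt.mp h).trans (le_max_right 68 n)))).mpr
            (Contains.refl _)
        rw [h4] at h3
        exact absurd h3 (by decide)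
      · intro h1 σ hσ
        obtain ⟨h2, h3⟩ := (hF σ).mp hσ
        rw [Bool.not_eq_true', ← Bool.not_eq_true]
        intro h4
        have h5 := (alg_iff hk le_rfl (wid_of_length_le (h2.trans (le_max_right 68 n)))).mp h4
        exact h3 (hC _ h1 _ h5)
  have hmemPT : PT mem := by
    refine PT.ite (PT.ult (PT.const (U.mk n)) (PT.length (pt_values.comp hπ)))
      ((pt_rwidB 17).comp (pt_values.comp hπ)) (pt_avoids (3 * k) F hπ)
  have halg : PT fun x => alg (3 * k) (values (π x)) (values (τ x)) :=
    (pt_alg (3 * k)).comp ((pt_values.comp hπ).pair (pt_values.comp hτ))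
  have hwid : ∀ x, π x ∈ C → Wid k (π x) := by
    intro x hx
    by_cases h : n < (π x).1
    · exact ((hCn _ h).mp hx).wid.mono (le_max_left 68 n)
    · exact wid_of_length_le ((not_lt.mp h).trans (le_max_right 68 n))
  have hPT : PT L := by
    refine (PT.and hmemPT halg).congr fun x => ?_
    rw [Bool.eq_iff_iff, Bool.and_eq_true, hmem, hL x]
    constructor
    · rintro ⟨h1, h2⟩
      exact ⟨(alg_iff hk le_rfl (hwid x h1)).mp h2, h1⟩
    · rintro ⟨h1, h2⟩
      exact ⟨h2, (alg_iff hk le_rfl (hwid x h2)).mpr h1⟩
  exact hPT.isPolyTime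

end Pool.Agent.PPMDec
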