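import Mathlib
import Pool.Agent.PPMDec.Decide
import Pool.Agent.PPMDec.Pat

/-!
# Narrowness is primitive recursive
-/

set_option autoImplicit false
set_option linter.dupNamespace false

namespace Pool.Agent.PPMDec

open Function Pool.Agent.PT Pool.Agent.PPM N487b59b3

/-- a primitive recursive predicate on lists which decides narrowness -/
theorem exists_prim_rwid {g : ℕ} (hg : 1 ≤ g) : ∃ W : List ℕ → Prop, PrimrecPred W ∧
    ∀ σ : Permutation, W (vals σ) ↔ RWid g σ := by
  obtain ⟨F, hF, hF2⟩ := exists_primrec (pt_rwidB g)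
  refine ⟨fun l => F (encNats l) = [true], Primrec.eq.comp (hF.comp prim_encNats)
    (Primrec.const [true]), fun σ => ?_⟩
  rw [← rwidB_iff hg]
  show F (encNats (vals σ)) = [true] ↔ _
  rw [← enc_listU, ← values_eq, hF2]
  have h : enc (rwidB g (values σ)) = [rwidB g (values σ)] := rfl
  rw [h]
  simp

end Pool.Agent.PPMDec
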