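import Mathlib
import Pool.Agent.PPMDec.BadPrim
import Pool.Agent.PPMDec.NB
import Pool.Agent.PPMDec.WidPrim
import Pool.Agent.PPMDec.Hard

/-!
# A primitive recursive class of unbounded treewidth whose pattern matching problem is not NP-hard
-/

set_option autoImplicit false
set_option linter.dupNamespace false

namespace Pool.Agent.PPMDec

open Function Pool.Agent.PT Pool.Agent.PPM N487b59b3

theorem enc_pair_eq (π τ : Permutation) :
    (enc (π, τ) : List Bool) = delimit (encNats (vals π)) ++ encNats (vals τ) := by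
  rw [enc_prod, enc_perm, enc_perm]

theorem mem_cand {l : List ℕ} (h : IsPerm l) {m : ℕ} (hm : l.length ≤ m) :
    l ∈ tup (List.range m) m := by
  rw [mem_tup]
  exact ⟨hm, fun a ha => List.mem_range.mpr ((h.lt ha).trans_le hm)⟩

theorem reduces_language_of_reduces {L : List Bool → Bool} {C : Set Permutation}
    (h : ReducesToPatternPPM L C) : ReducesToPatternPPMLanguage L C := by
  obtain ⟨f, hf, hf2⟩ := h
  exact ⟨f, hf, fun x => (hf2 x).2.trans ⟨fun h => ⟨(hf2 x).1, h⟩, fun h => h.2⟩⟩

/-- **Diagonalisation against one language.** For each language in NP outside P there is a primitive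
recursive class of unbounded treewidth to whose pattern matching problem it does not reduce. -/
theorem exists_class {L : List Bool → Bool} (hL : L ∈ N68a2faeb.NP) (hLP : L ∉ N68a2faeb.P) :
    ∃ C : Set Permutation, IsClass C ∧ UnboundedTreewidth C ∧ PrimrecClass C ∧
      ¬ ReducesToPatternPPMLanguage L C := by
  classical
  obtain ⟨W, hWp, hW⟩ := exists_prim_rwid (g := 17) (by norm_num)
  have hLp : Primrec L := primrec_of_mem_np hL
  -- membership as used in the search
  have hinB : ∀ (n b : ℕ) (π : Permutation), n < b →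
      (∀ m, n < m → m ≤ b → gapOf (BadS L W) m) → π.1 ≤ b →
      (InB W n (gaps (BadS L W) (b - 1)) (vals π) ↔ π ∈ GapClass (gapOf (BadS L W))) := by
    intro n b π hnb hgap hπ
    unfold InB
    rw [length_vals]
    rcases lt_or_ge n π.1 with h | h
    · rw [hW, mem_gapClass_of_gap (hgap _ h hπ)]
      exact ⟨fun h1 => h1.1 h, fun h1 => ⟨fun _ => h1, fun h2 => absurd h2 (by omega)⟩⟩
    · rw [← inCL_gaps_iff hW (M := b - 1) (by omega)]
      exact ⟨fun h1 => h1.2 h, fun h1 => ⟨fun h2 => absurd h2 (by omega), fun _ => h1⟩⟩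
  have hterm : ∀ K n, Stage (BadS L W) K n → (∀ m, n < m → gapOf (BadS L W) m) →
      (∀ b, n < b → ¬ BadS L W K n b (gaps (BadS L W) (b - 1))) → False := by
    intro K n _ hgap hnot
    apply hLP
    refine nb L K n (GapClass (gapOf (BadS L W))) isClass_gapClass
      (fun π hπ => mem_gapClass_of_gap (hgap _ hπ)) fun x => ?_
    have hgood : ∀ b, n < b → x.length ≤ b →
        Good L W K n b (gaps (BadS L W) (b - 1)) x := by
      intro b hb hx
      by_contra hcon
      exact hnot b hb ⟨x, (mem_bits x b).mpr hx, hcon⟩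
    obtain ⟨hO, p, _, q, _, hp, hq, hz, _⟩ := hgood (max (n + 1) x.length) (by omega) (by omega)
    obtain ⟨π, rfl⟩ := exists_vals_eq hp
    obtain ⟨τ, rfl⟩ := exists_vals_eq hq
    rw [← enc_pair_eq] at hz
    rw [hz] at hO
    refine ⟨π, τ, hO, ?_⟩
    obtain ⟨_, p', _, q', _, hp', hq', hz', hiff⟩ :=
      hgood (max (max (n + 1) x.length) π.1) (by omega) (by omega)
    obtain ⟨π', rfl⟩ := exists_vals_eq hp'
    obtain ⟨τ', rfl⟩ := exists_vals_eq hq'
    rw [← enc_pair_eq, hz] at hz'
    have h1 := bitEncode_injective hz'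
    rw [Prod.mk.injEq] at h1
    obtain ⟨rfl, rfl⟩ := h1
    rw [length_vals, contL_iff, hinB n _ π (by omega) (fun m hm _ => hgap m hm) (by omega)] at hiff
    exact hiff (by omega)
  refine ⟨GapClass (gapOf (BadS L W)), isClass_gapClass, unbounded_of_stages hterm,
    prim_gapClass hW hWp (prim_badS hLp hWp), ?_⟩
  rintro ⟨f, hf, hf2⟩
  obtain ⟨c, p, hc⟩ := PT.of_isPolyTime hf
  obtain ⟨k, hk⟩ := exists_pow_bound (2 * p)
  obtain ⟨n, b, hnb, _, ⟨x, _, hx⟩, hgap, _⟩ := stages hterm (Nat.pair c.code k)
  apply hx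
  have hO : Outp (Nat.pair c.code k) x (enc (f x)) := by
    refine outp_of_runs (hc x) ?_
    have := hk (enc x : List Bool).length
    simpa using this
  have hz : (conf (Nat.pair c.code k) x).2.getD 0 [] = enc (f x) := hO.2.2
  have hz2 : (enc (f x) : List Bool) =
      delimit (encNats (vals (f x).1)) ++ encNats (vals (f x).2) := enc_pair_eq _ _
  have hlen : (enc (f x) : List Bool).length =
      2 * (encNats (vals (f x).1)).length + 1 + (encNats (vals (f x).2)).length := by
    rw [hz2, List.length_append, length_delimit]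
  have l1 := length_encNats (vals (f x).1)
  have l2 := length_encNats (vals (f x).2)
  refine ⟨by rw [hz]; exact hO, vals (f x).1, ?_, vals (f x).2, ?_, isPerm_vals _, isPerm_vals _,
    by rw [hz]; exact hz2, fun hlb => ?_⟩
  · rw [hz]
    exact mem_cand (isPerm_vals _) (by omega)
  · rw [hz]
    exact mem_cand (isPerm_vals _) (by omega)
  · rw [length_vals] at hlb
    rw [contL_iff, hinB n b _ hnb hgap hlb]
    exact (hf2 x).trans and_comm

theorem main_theorem :
    ((∀ C : Set Permutation, IsClass C → PrimrecClass C → UnboundedTreewidth C →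
      PatternPPMHard C) ↔ N68a2faeb.P = N68a2faeb.NP) ∧
    ((∀ C : Set Permutation, IsClass C → PrimrecClass C → UnboundedTreewidth C →
      PatternPPMLanguageHard C) ↔ N68a2faeb.P = N68a2faeb.NP) := by
  have h2 : (∀ C : Set Permutation, IsClass C → PrimrecClass C → UnboundedTreewidth C →
      PatternPPMLanguageHard C) → N68a2faeb.P = N68a2faeb.NP := by
    intro h
    refine Set.Subset.antisymm p_subset_np fun L hL => ?_
    by_contra hLP
    obtain ⟨C, a1, a2, a3, a4⟩ := exists_class hL hLP
    exact a4 (h C a1 a3 a2 L hL)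
  exact ⟨⟨fun h => h2 fun C a1 a2 a3 L hL => reduces_language_of_reduces (h C a1 a2 a3 L hL),
    fun h C _ _ a3 => hard_of_p_eq_np h C a3⟩, ⟨h2, fun h C _ _ a3 L hL =>
      reduces_language_of_reduces (hard_of_p_eq_np h C a3 L hL)⟩⟩

end Pool.Agent.PPMDec
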