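import Mathlib
import Pool.Agent.PPMDec.Tools
import Pool.Agent.Lib_helper89.PPM.Width

/-!
# Hierarchical decompositions are primitive recursive

Sets of positions of a permutation are given by lists of natural numbers. `decL g l S` says that
the set `S` of positions of the permutation with the list of values `l` has a hierarchical
decomposition with at most `g` boundary points.
-/

set_option autoImplicit false

namespace Pool.Agent.PPMDec

open Pool.Agent.PPM

section tools

variable {α δ : Type} [Primcodable α] [Primcodable δ]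

theorem prim_mem {f : δ → α} {g : δ → List α} (hf : Primrec f) (hg : Primrec g) :
    PrimrecPred fun d => f d ∈ g d := by
  refine (prim_exists (R := fun d a => a = f d) hg ?_).of_eq fun d => ?_
  · exact Primrec.eq.comp Primrec.snd (hf.comp Primrec.fst)
  · simp

theorem prim_filter {f : δ → List α} {R : δ → α → Prop} {inst : ∀ d a, Decidable (R d a)}
    (hf : Primrec f) (hR : PrimrecPred fun p : δ × α => R p.1 p.2) :
    Primrec fun d => (f d).filter fun a => @decide (R d a) (inst d a) := by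
  classical
  have h1 : PrimrecRel fun (a : α) (d : δ) => R d a := PrimrecRel.swap (r := R) hR
  refine ((PrimrecRel.listFilter h1).comp hf Primrec.id).of_eq fun d => ?_
  refine List.filter_congr fun a _ => ?_
  simp

end tools

/-- the values of a permutation, as natural numbers -/
def valsN (π : Permutation) : List ℕ := List.ofFn fun i => (π.2 i).val

/-- the set of the numbers in a list -/
def toF (n : ℕ) (A : List ℕ) : Finset (Fin n) := Finset.univ.filter fun i => i.val ∈ A

theorem mem_toF {n : ℕ} {A : List ℕ} {i : Fin n} : i ∈ toF n A ↔ i.val ∈ A := by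
  simp [toF]

/-- `q` is the next position of `S` after `p` -/
def nxP (S : List ℕ) (p q : ℕ) : Prop := p < q ∧ ∀ r ∈ S, r ≤ p ∨ q ≤ r

/-- `q` is the next one of `S` after `p` in the order of the values -/
def nxV (l S : List ℕ) (p q : ℕ) : Prop :=
  l.getD p 0 < l.getD q 0 ∧ ∀ r ∈ S, l.getD r 0 ≤ l.getD p 0 ∨ l.getD q 0 ≤ l.getD r 0

/-- neighbours -/
def nbrL (l S : List ℕ) (p q : ℕ) : Prop :=
  nxP S p q ∨ nxP S q p ∨ nxV l S p q ∨ nxV l S q p

/-- `p` is a boundary point of `A` -/
def bdP (l S A : List ℕ) (p : ℕ) : Prop := p ∈ A ∧ ∃ q ∈ S, q ∉ A ∧ nbrL l S p q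

open Classical in
/-- the number of boundary points of `A` -/
noncomputable def bdN (l S A : List ℕ) : ℕ := (S.filter fun p => decide (bdP l S A p)).length

/-- `A` is the disjoint union of `B` and `C` -/
def splitsL (A B C : List ℕ) : Prop :=
  (∀ x ∈ A, x ∈ B ∨ x ∈ C) ∧ (∀ x ∈ B, x ∈ A ∧ x ∉ C) ∧ ∀ x ∈ C, x ∈ A

open Classical in
/-- one round -/
noncomputable def stepD (g : ℕ) (l S : List ℕ) (D : List (List ℕ)) : List (List ℕ) :=
  (tup S S.length).filter fun A => decide (A ∈ D ∨
    ∃ B ∈ D, ∃ C ∈ D, splitsL A B C ∧ bdN l S A ≤ g)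

open Classical in
/-- the decomposable sets found after some rounds -/
noncomputable def famD (g : ℕ) (l S : List ℕ) : ℕ → List (List ℕ)
  | 0 => (tup S S.length).filter fun A => decide (∀ x ∈ A, ∀ y ∈ A, x = y)
  | i + 1 => stepD g l S (famD g l S i)

/-- the set `S` of positions has a hierarchical decomposition -/
def decL (g : ℕ) (l S : List ℕ) : Prop := ∃ A ∈ famD g l S S.length, ∀ x ∈ S, x ∈ A

/-! ### primitive recursive -/

section prim

variable {δ : Type} [Primcodable δ]

theorem prim_val {f : δ → List ℕ} {g : δ → ℕ} (hf : Primrec f) (hg : Primrec g) :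
    Primrec fun d => (f d).getD (g d) 0 :=
  (Primrec.list_getD 0).comp hf hg

theorem prim_nxP {S : δ → List ℕ} {p q : δ → ℕ} (hS : Primrec S) (hp : Primrec p)
    (hq : Primrec q) : PrimrecPred fun d => nxP (S d) (p d) (q d) := by
  refine (Primrec.nat_lt.comp hp hq).and ?_
  refine prim_forall (R := fun d r => r ≤ p d ∨ q d ≤ r) hS ?_
  exact (Primrec.nat_le.comp Primrec.snd (hp.comp Primrec.fst)).or
    (Primrec.nat_le.comp (hq.comp Primrec.fst) Primrec.snd)

theorem prim_nxV {l S : δ → List ℕ} {p q : δ → ℕ} (hl : Primrec l) (hS : Primrec S)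
    (hp : Primrec p) (hq : Primrec q) : PrimrecPred fun d => nxV (l d) (S d) (p d) (q d) := by
  refine (Primrec.nat_lt.comp (prim_val hl hp) (prim_val hl hq)).and ?_
  refine prim_forall (R := fun d r => (l d).getD r 0 ≤ (l d).getD (p d) 0 ∨
    (l d).getD (q d) 0 ≤ (l d).getD r 0) hS ?_
  exact (Primrec.nat_le.comp (prim_val (hl.comp Primrec.fst) Primrec.snd)
      (prim_val (hl.comp Primrec.fst) (hp.comp Primrec.fst))).or
    (Primrec.nat_le.comp (prim_val (hl.comp Primrec.fst) (hq.comp Primrec.fst))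
      (prim_val (hl.comp Primrec.fst) Primrec.snd))

theorem prim_nbrL {l S : δ → List ℕ} {p q : δ → ℕ} (hl : Primrec l) (hS : Primrec S)
    (hp : Primrec p) (hq : Primrec q) : PrimrecPred fun d => nbrL (l d) (S d) (p d) (q d) :=
  (prim_nxP hS hp hq).or ((prim_nxP hS hq hp).or ((prim_nxV hl hS hp hq).or
    (prim_nxV hl hS hq hp)))

theorem prim_bdP {l S A : δ → List ℕ} {p : δ → ℕ} (hl : Primrec l) (hS : Primrec S)
    (hA : Primrec A) (hp : Primrec p) : PrimrecPred fun d => bdP (l d) (S d) (A d) (p d) := by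
  refine (prim_mem hp hA).and ?_
  refine prim_exists (R := fun d q => q ∉ A d ∧ nbrL (l d) (S d) (p d) q) hS ?_
  exact (prim_mem Primrec.snd (hA.comp Primrec.fst)).not.and
    (prim_nbrL (hl.comp Primrec.fst) (hS.comp Primrec.fst) (hp.comp Primrec.fst) Primrec.snd)

theorem prim_bdN {l S A : δ → List ℕ} (hl : Primrec l) (hS : Primrec S) (hA : Primrec A) :
    Primrec fun d => bdN (l d) (S d) (A d) := by
  unfold bdN
  refine Primrec.list_length.comp (prim_filter (R := fun d p => bdP (l d) (S d) (A d) p) hS ?_)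
  exact prim_bdP (hl.comp Primrec.fst) (hS.comp Primrec.fst) (hA.comp Primrec.fst) Primrec.snd

theorem prim_splitsL {A B C : δ → List ℕ} (hA : Primrec A) (hB : Primrec B) (hC : Primrec C) :
    PrimrecPred fun d => splitsL (A d) (B d) (C d) := by
  refine PrimrecPred.and ?_ (PrimrecPred.and ?_ ?_)
  · refine prim_forall (R := fun d x => x ∈ B d ∨ x ∈ C d) hA ?_
    exact (prim_mem Primrec.snd (hB.comp Primrec.fst)).or
      (prim_mem Primrec.snd (hC.comp Primrec.fst))
  · refine prim_forall (R := fun d x => x ∈ A d ∧ x ∉ C d) hB ?_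
    exact (prim_mem Primrec.snd (hA.comp Primrec.fst)).and
      (prim_mem Primrec.snd (hC.comp Primrec.fst)).not
  · refine prim_forall (R := fun d x => x ∈ A d) hC ?_
    exact prim_mem Primrec.snd (hA.comp Primrec.fst)

theorem prim_stepD {g : δ → ℕ} {l S : δ → List ℕ} {D : δ → List (List ℕ)} (hg : Primrec g)
    (hl : Primrec l) (hS : Primrec S) (hD : Primrec D) :
    Primrec fun d => stepD (g d) (l d) (S d) (D d) := by
  unfold stepD
  refine prim_filter (R := fun d A => A ∈ D d ∨
    ∃ B ∈ D d, ∃ C ∈ D d, splitsL A B C ∧ bdN (l d) (S d) A ≤ g d)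
    (prim_tup hS (Primrec.list_length.comp hS)) ?_
  refine (prim_mem Primrec.snd (hD.comp Primrec.fst)).or ?_
  refine prim_exists (R := fun (d : δ × List ℕ) B => ∃ C ∈ D d.1, splitsL d.2 B C ∧
    bdN (l d.1) (S d.1) d.2 ≤ g d.1) (hD.comp Primrec.fst) ?_
  refine prim_exists (R := fun (d : (δ × List ℕ) × List ℕ) C => splitsL d.1.2 d.2 C ∧
    bdN (l d.1.1) (S d.1.1) d.1.2 ≤ g d.1.1) (hD.comp (Primrec.fst.comp Primrec.fst)) ?_
  refine (prim_splitsL (Primrec.snd.comp (Primrec.fst.comp Primrec.fst))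
    (Primrec.snd.comp Primrec.fst) Primrec.snd).and ?_
  exact Primrec.nat_le.comp (prim_bdN (hl.comp (Primrec.fst.comp (Primrec.fst.comp Primrec.fst)))
    (hS.comp (Primrec.fst.comp (Primrec.fst.comp Primrec.fst)))
    (Primrec.snd.comp (Primrec.fst.comp Primrec.fst)))
    (hg.comp (Primrec.fst.comp (Primrec.fst.comp Primrec.fst)))

theorem prim_famD {g : δ → ℕ} {l S : δ → List ℕ} {i : δ → ℕ} (hg : Primrec g)
    (hl : Primrec l) (hS : Primrec S) (hi : Primrec i) :
    Primrec fun d => famD (g d) (l d) (S d) (i d) := by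
  classical
  have h0 : Primrec fun d => (tup (S d) (S d).length).filter
      fun A => decide (∀ x ∈ A, ∀ y ∈ A, x = y) := by
    refine prim_filter (R := fun _ (A : List ℕ) => ∀ x ∈ A, ∀ y ∈ A, x = y)
      (prim_tup hS (Primrec.list_length.comp hS)) ?_
    refine prim_forall (R := fun (d : δ × List ℕ) x => ∀ y ∈ d.2, x = y) Primrec.snd ?_
    refine prim_forall (R := fun (d : (δ × List ℕ) × ℕ) y => d.2 = y)
      (Primrec.snd.comp Primrec.fst) ?_
    exact Primrec.eq.comp (Primrec.snd.comp Primrec.fst) Primrec.snd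
  have h := Primrec.nat_rec' (f := i) (g := fun d => (tup (S d) (S d).length).filter
      fun A => decide (∀ x ∈ A, ∀ y ∈ A, x = y))
    (h := fun d (p : ℕ × List (List ℕ)) => stepD (g d) (l d) (S d) p.2) hi h0
    (prim_stepD (hg.comp Primrec.fst) (hl.comp Primrec.fst) (hS.comp Primrec.fst)
      (Primrec.snd.comp Primrec.snd))
  refine h.of_eq fun d => ?_
  induction i d with
  | zero => simp only [famD]; congr
  | succ n ih => simp only [famD]; rw [← ih]

/-- `decL` is primitive recursive. -/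
theorem prim_decL {g : δ → ℕ} {l S : δ → List ℕ} (hg : Primrec g) (hl : Primrec l)
    (hS : Primrec S) : PrimrecPred fun d => decL (g d) (l d) (S d) := by
  refine prim_exists (R := fun d (A : List ℕ) => ∀ x ∈ S d, x ∈ A)
    (prim_famD hg hl hS (Primrec.list_length.comp hS)) ?_
  refine prim_forall (R := fun (d : δ × List ℕ) x => x ∈ d.2) (hS.comp Primrec.fst) ?_
  exact prim_mem Primrec.snd (Primrec.snd.comp Primrec.fst)

end prim

/-! ### correctness -/

theorem getD_valsN (π : Permutation) (i : Fin π.1) : (valsN π).getD i.val 0 = (π.2 i).val := by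
  simp [valsN, List.getD_eq_getElem?_getD]

theorem card_toF {n : ℕ} {L : List ℕ} (h1 : L.Nodup) (h2 : ∀ x ∈ L, x < n) :
    (toF n L).card = L.length := by
  rw [← List.toFinset_card_of_nodup h1, ← Finset.card_map Fin.valEmbedding]
  congr 1
  ext x
  simp only [Finset.mem_map, mem_toF, Fin.valEmbedding_apply, List.mem_toFinset]
  constructor
  · rintro ⟨i, hi, rfl⟩
    exact hi
  · intro hx
    exact ⟨⟨x, h2 x hx⟩, hx, rfl⟩

section correct

variable (π : Permutation)

/-- horizontal coordinate -/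
def XX (i : Fin π.1) : ℤ := (i.val : ℤ)

/-- vertical coordinate -/
def YY (i : Fin π.1) : ℤ := ((π.2 i).val : ℤ)

variable {π} {S : List ℕ}

theorem next_X_iff (hS : ∀ x ∈ S, x < π.1) {p q : Fin π.1} (hp : p.val ∈ S) (hq : q.val ∈ S) :
    Next (XX π) (toF π.1 S) p q ↔ nxP S p.val q.val := by
  unfold Next nxP XX
  constructor
  · rintro ⟨_, _, h3, h4⟩
    refine ⟨by exact_mod_cast h3, fun r hr => ?_⟩
    have := h4 ⟨r, hS r hr⟩ (mem_toF.mpr hr)
    simpa using this
  · rintro ⟨h3, h4⟩
    refine ⟨mem_toF.mpr hp, mem_toF.mpr hq, by exact_mod_cast h3, fun r hr => ?_⟩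
    have := h4 r.val (mem_toF.mp hr)
    exact_mod_cast this

theorem next_Y_iff (hS : ∀ x ∈ S, x < π.1) {p q : Fin π.1} (hp : p.val ∈ S) (hq : q.val ∈ S) :
    Next (YY π) (toF π.1 S) p q ↔ nxV (valsN π) S p.val q.val := by
  unfold Next nxV YY
  constructor
  · rintro ⟨_, _, h3, h4⟩
    refine ⟨?_, fun r hr => ?_⟩
    · rw [getD_valsN, getD_valsN]
      exact_mod_cast h3
    · have := h4 ⟨r, hS r hr⟩ (mem_toF.mpr hr)
      have e : (valsN π).getD r 0 = (π.2 ⟨r, hS r hr⟩).val := getD_valsN π ⟨r, hS r hr⟩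
      rw [getD_valsN, getD_valsN, e]
      exact_mod_cast this
  · rintro ⟨h3, h4⟩
    rw [getD_valsN, getD_valsN] at h3
    refine ⟨mem_toF.mpr hp, mem_toF.mpr hq, by exact_mod_cast h3, fun r hr => ?_⟩
    have := h4 r.val (mem_toF.mp hr)
    rw [getD_valsN, getD_valsN, getD_valsN] at this
    exact_mod_cast this

theorem nbr_iff (hS : ∀ x ∈ S, x < π.1) {p q : Fin π.1} (hp : p.val ∈ S) (hq : q.val ∈ S) :
    Nbr (XX π) (YY π) (toF π.1 S) p q ↔ nbrL (valsN π) S p.val q.val := by
  unfold Nbr nbrL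
  rw [next_X_iff hS hp hq, next_X_iff hS hq hp, next_Y_iff hS hp hq, next_Y_iff hS hq hp]

theorem card_bd_eq (hS : ∀ x ∈ S, x < π.1) (hnd : S.Nodup) {A : List ℕ} (hA : ∀ x ∈ A, x ∈ S) :
    (bd (XX π) (YY π) (toF π.1 S) (toF π.1 A)).card = bdN (valsN π) S A := by
  classical
  unfold bdN
  rw [← card_toF (n := π.1) (hnd.filter _) (fun x hx => hS x (List.mem_of_mem_filter hx))]
  congr 1
  ext p
  rw [mem_bd, mem_toF, mem_toF, List.mem_filter, decide_eq_true_iff]
  unfold bdP
  constructor
  · rintro ⟨h1, q, h2, h3, h4⟩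
    have hp := hA _ h1
    have hq := mem_toF.mp h2
    exact ⟨hp, h1, q.val, hq, fun h => h3 (mem_toF.mpr h), (nbr_iff hS hp hq).mp h4⟩
  · rintro ⟨hp, h1, q, h2, h3, h4⟩
    refine ⟨h1, ⟨q, hS q h2⟩, mem_toF.mpr h2, fun h => h3 (mem_toF.mp h), ?_⟩
    exact (nbr_iff (q := ⟨q, hS q h2⟩) hS hp h2).mpr h4

theorem mem_tup_of_mem_famD {g : ℕ} {l S A : List ℕ} {i : ℕ} (h : A ∈ famD g l S i) :
    A ∈ tup S S.length := by
  cases i with
  | zero => exact List.mem_of_mem_filter h
  | succ i => exact List.mem_of_mem_filter h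

theorem famD_succ {g : ℕ} {l S A : List ℕ} {i : ℕ} (h : A ∈ famD g l S i) :
    A ∈ famD g l S (i + 1) := by
  classical
  rw [famD, stepD, List.mem_filter]
  exact ⟨mem_tup_of_mem_famD h, decide_eq_true (Or.inl h)⟩

theorem famD_mono {g : ℕ} {l S A : List ℕ} {i j : ℕ} (hij : i ≤ j) (h : A ∈ famD g l S i) :
    A ∈ famD g l S j := by
  induction hij with
  | refl => exact h
  | step _ ih => exact famD_succ ih

theorem dec_of_mem_famD {g : ℕ} (hS : ∀ x ∈ S, x < π.1) (hnd : S.Nodup) {i : ℕ} :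
    ∀ {A : List ℕ}, A ∈ famD g (valsN π) S i → Dec (XX π) (YY π) (toF π.1 S) g (toF π.1 A) := by
  classical
  induction i with
  | zero =>
    intro A hA
    rw [famD, List.mem_filter, mem_tup, decide_eq_true_iff] at hA
    obtain ⟨⟨_, h1⟩, h2⟩ := hA
    cases A with
    | nil =>
      have : toF π.1 [] = ∅ := by ext i; simp [mem_toF]
      rw [this]
      exact Dec.empty
    | cons a A =>
      have haS : a ∈ S := h1 a List.mem_cons_self
      have : toF π.1 (a :: A) = {⟨a, hS a haS⟩} := by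
        ext i
        rw [mem_toF, Finset.mem_singleton]
        constructor
        · intro hi
          exact Fin.ext (h2 _ hi a List.mem_cons_self)
        · rintro rfl
          exact List.mem_cons_self
      rw [this]
      exact Dec.single (mem_toF.mpr haS)
  | succ i ih =>
    intro A hA
    rw [famD, stepD, List.mem_filter, decide_eq_true_iff] at hA
    obtain ⟨h0, h | ⟨B, hB, C, hC, ⟨h1, h2, h3⟩, h4⟩⟩ := hA
    · exact ih h
    · have hAS : ∀ x ∈ A, x ∈ S := (mem_tup.mp h0).2
      have hU : toF π.1 A = toF π.1 B ∪ toF π.1 C := by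
        ext i
        rw [Finset.mem_union, mem_toF, mem_toF, mem_toF]
        constructor
        · exact h1 i.val
        · rintro (h | h)
          · exact (h2 _ h).1
          · exact h3 _ h
      rw [hU]
      refine Dec.union (ih hB) (ih hC) ?_ ?_
      · rw [Finset.disjoint_left]
        intro i hi hi'
        exact (h2 _ (mem_toF.mp hi)).2 (mem_toF.mp hi')
      · rw [← hU, card_bd_eq hS hnd hAS]
        exact h4

theorem mem_famD_of_dec {g : ℕ} (hS : ∀ x ∈ S, x < π.1) (hnd : S.Nodup)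
    {A' : Finset (Fin π.1)} (h : Dec (XX π) (YY π) (toF π.1 S) g A') :
    ∀ A ∈ tup S S.length, toF π.1 A = A' → A ∈ famD g (valsN π) S A'.card := by
  classical
  have hrep : ∀ B' : Finset (Fin π.1), B' ⊆ toF π.1 S → ∃ B ∈ tup S S.length, toF π.1 B = B' := by
    intro B' hB'
    refine ⟨S.filter fun x => decide (∃ i ∈ B', i.val = x), ?_, ?_⟩
    · rw [mem_tup]
      exact ⟨List.length_filter_le _ _, fun a ha => List.mem_of_mem_filter ha⟩
    · ext i
      rw [mem_toF, List.mem_filter, decide_eq_true_iff]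
      constructor
      · rintro ⟨_, j, hj, hji⟩
        rwa [← Fin.ext hji]
      · intro hi
        exact ⟨mem_toF.mp (hB' hi), i, hi, rfl⟩
  induction h with
  | empty =>
    intro A hA hAF
    rw [Finset.card_empty, famD, List.mem_filter, decide_eq_true_iff]
    refine ⟨hA, fun x hx => ?_⟩
    exfalso
    have hxS := hS x ((mem_tup.mp hA).2 x hx)
    have : (⟨x, hxS⟩ : Fin π.1) ∈ toF π.1 A := mem_toF.mpr hx
    rw [hAF] at this
    simp at this
  | @single p hp =>
    intro A hA hAF
    refine famD_mono (Nat.zero_le _) ?_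
    rw [famD, List.mem_filter, decide_eq_true_iff]
    refine ⟨hA, fun x hx y hy => ?_⟩
    have h1 : ∀ z ∈ A, z = p.val := by
      intro z hz
      have hzS := hS z ((mem_tup.mp hA).2 z hz)
      have : (⟨z, hzS⟩ : Fin π.1) ∈ toF π.1 A := mem_toF.mpr hz
      rw [hAF, Finset.mem_singleton] at this
      exact congrArg Fin.val this
    rw [h1 x hx, h1 y hy]
  | @union A1 A2 hA1 hA2 hdis hcard ih1 ih2 =>
    intro A hA hAF
    rcases A1.eq_empty_or_nonempty with rfl | hne1
    · rw [Finset.empty_union] at hAF ⊢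
      exact ih2 A hA hAF
    rcases A2.eq_empty_or_nonempty with rfl | hne2
    · rw [Finset.union_empty] at hAF ⊢
      exact ih1 A hA hAF
    obtain ⟨B, hB, hBF⟩ := hrep A1 hA1.subset
    obtain ⟨C, hC, hCF⟩ := hrep A2 hA2.subset
    have c1 := Finset.card_pos.mpr hne1
    have c2 := Finset.card_pos.mpr hne2
    have c3 := Finset.card_union_of_disjoint hdis
    obtain ⟨k, hk⟩ : ∃ k, (A1 ∪ A2).card = k + 1 := ⟨(A1 ∪ A2).card - 1, by omega⟩
    rw [hk, famD, stepD, List.mem_filter, decide_eq_true_iff]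
    refine ⟨hA, Or.inr ⟨B, famD_mono (by omega) (ih1 B hB hBF), C,
      famD_mono (by omega) (ih2 C hC hCF), ⟨?_, ?_, ?_⟩, ?_⟩⟩
    · intro x hx
      have hxS := hS x ((mem_tup.mp hA).2 x hx)
      have : (⟨x, hxS⟩ : Fin π.1) ∈ toF π.1 A := mem_toF.mpr hx
      rw [hAF, Finset.mem_union, ← hBF, ← hCF, mem_toF, mem_toF] at this
      exact this
    · intro x hx
      have hxS := hS x ((mem_tup.mp hB).2 x hx)
      have h1 : (⟨x, hxS⟩ : Fin π.1) ∈ toF π.1 B := mem_toF.mpr hx
      rw [hBF] at h1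
      refine ⟨?_, fun hxC => ?_⟩
      · have : (⟨x, hxS⟩ : Fin π.1) ∈ toF π.1 A := by
          rw [hAF]
          exact Finset.mem_union_left _ h1
        exact mem_toF.mp this
      · have h2 : (⟨x, hxS⟩ : Fin π.1) ∈ toF π.1 C := mem_toF.mpr hxC
        rw [hCF] at h2
        exact Finset.disjoint_left.mp hdis h1 h2
    · intro x hx
      have hxS := hS x ((mem_tup.mp hC).2 x hx)
      have h1 : (⟨x, hxS⟩ : Fin π.1) ∈ toF π.1 C := mem_toF.mpr hx
      rw [hCF] at h1
      have : (⟨x, hxS⟩ : Fin π.1) ∈ toF π.1 A := by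
        rw [hAF]
        exact Finset.mem_union_right _ h1
      exact mem_toF.mp this
    · rw [← card_bd_eq hS hnd (mem_tup.mp hA).2, hAF]
      exact hcard

/-- `decL` is correct. -/
theorem decL_iff {g : ℕ} (hS : ∀ x ∈ S, x < π.1) (hnd : S.Nodup) :
    decL g (valsN π) S ↔ Dec (XX π) (YY π) (toF π.1 S) g (toF π.1 S) := by
  constructor
  · rintro ⟨A, hA, h⟩
    have h1 := dec_of_mem_famD hS hnd hA
    have hAS := (mem_tup.mp (mem_tup_of_mem_famD hA)).2
    have : toF π.1 A = toF π.1 S := by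
      ext i
      rw [mem_toF, mem_toF]
      exact ⟨hAS _, h _⟩
    rwa [this] at h1
  · intro h
    have h1 := mem_famD_of_dec hS hnd h S (mem_tup.mpr ⟨le_rfl, fun _ h => h⟩) rfl
    rw [card_toF hnd hS] at h1
    exact ⟨S, h1, fun _ h => h⟩

/-- the whole permutation -/
theorem decL_range_iff {g : ℕ} (π : Permutation) :
    decL g (valsN π) (List.range π.1) ↔ Wid g π := by
  rw [decL_iff (fun x hx => List.mem_range.mp hx) List.nodup_range]
  have : toF π.1 (List.range π.1) = Finset.univ := by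
    ext i
    simp [mem_toF]
  rw [this]
  rfl

end correct

end Pool.Agent.PPMDec
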